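import Mathlib

set_option autoImplicit false

/-!
Basic notions for the Caro-Yuster problem: neighbourhoods inside a kept set,
the property of having at least `k` vertices of maximum degree, the raising lemma,
Ramsey's theorem in the form needed, near twins, and the prescan.
-/

namespace Pool.Agent.MaxDeg

open Finset

variable {V : Type} [DecidableEq V] (G : SimpleGraph V) [DecidableRel G.Adj]

/-- neighbours of `v` inside the finite set `S` -/
def nb (S : Finset V) (v : V) : Finset V := S.filter (fun u => G.Adj v u)

/-- at least `k` vertices of `S` have maximum degree inside `S` -/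
def Good (k : ℕ) (S : Finset V) : Prop :=
  k ≤ (S.filter (fun v => ∀ w ∈ S, (nb G S w).card ≤ (nb G S v).card)).card

omit [DecidableEq V] in
lemma mem_nb {S : Finset V} {v u : V} : u ∈ nb G S v ↔ u ∈ S ∧ G.Adj v u := by
  simp [nb]

omit [DecidableEq V] in
lemma nb_mono {S T : Finset V} (h : S ⊆ T) (v : V) : nb G S v ⊆ nb G T v := by
  intro u hu
  rw [mem_nb] at hu ⊢
  exact ⟨h hu.1, hu.2⟩

lemma sdiff_card_aux (S Z S' : Finset V) :
    (S \ S').card ≤ Z.card + ((S \ Z) \ S').card := by
  have hsub : S \ S' ⊆ Z ∪ ((S \ Z) \ S') := by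
    intro w hw
    rw [mem_sdiff] at hw
    rw [mem_union, mem_sdiff, mem_sdiff]
    by_cases h : w ∈ Z
    · exact Or.inl h
    · exact Or.inr ⟨⟨hw.1, h⟩, hw.2⟩
  exact (card_le_card hsub).trans (card_union_le _ _)

/-- the raising lemma -/
theorem raise (k d : ℕ) (P A : Finset V) (hAP : A ⊆ P) (hk : k ≤ A.card)
    (hAd : ∀ a ∈ A, (nb G P a).card = d) :
    ∀ (L : ℕ) (S : Finset V), P ⊆ S → (∀ a ∈ A, nb G S a ⊆ P) →
      (∀ v ∈ S, (nb G P v).card ≤ d) → (∀ v ∈ S, (nb G S v).card ≤ d + L) →
      ∃ S' : Finset V, S' ⊆ S ∧ (S \ S').card ≤ k * L ∧ Good G k S' := by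
  intro L
  induction L with
  | zero =>
    intro S hPS hAS hP hS
    refine ⟨S, Subset.rfl, by simp, ?_⟩
    have hsub : A ⊆ S.filter (fun v => ∀ w ∈ S, (nb G S w).card ≤ (nb G S v).card) := by
      intro a ha
      rw [mem_filter]
      refine ⟨hPS (hAP ha), fun w hw => ?_⟩
      have h1 : nb G P a ⊆ nb G S a := nb_mono G hPS a
      have h2 := card_le_card h1
      rw [hAd a ha] at h2
      have h3 := hS w hw
      omega
    exact hk.trans (card_le_card hsub)
  | succ L ih =>
    intro S hPS hAS hP hS
    set M := S.filter (fun v => (nb G S v).card = d + (L + 1)) with hM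
    by_cases hMk : k ≤ M.card
    · refine ⟨S, Subset.rfl, by simp, ?_⟩
      refine hMk.trans (card_le_card ?_)
      intro v hv
      rw [hM, mem_filter] at hv
      rw [mem_filter]
      refine ⟨hv.1, fun w hw => ?_⟩
      have := hS w hw
      omega
    · push Not at hMk
      have hex : ∀ v ∈ M, ∃ w, w ∈ nb G S v ∧ w ∉ P := by
        intro v hv
        rw [hM, mem_filter] at hv
        by_contra hcon
        push Not at hcon
        have hsub : nb G S v ⊆ nb G P v := by
          intro w hw
          rw [mem_nb]
          exact ⟨hcon w hw, ((mem_nb G).1 hw).2⟩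
        have := card_le_card hsub
        have := hP v hv.1
        omega
      choose! f hf using hex
      set W := M.image f with hW
      have hWcard : W.card ≤ k := by
        have h1 : W.card ≤ M.card := card_image_le
        omega
      have hWP : ∀ w ∈ W, w ∉ P := by
        intro w hw
        rw [hW, mem_image] at hw
        obtain ⟨v, hv, rfl⟩ := hw
        exact (hf v hv).2
      have hPS1 : P ⊆ S \ W := by
        intro p hp
        rw [mem_sdiff]
        exact ⟨hPS hp, fun hw => hWP p hw hp⟩
      have hsubS : S \ W ⊆ S := sdiff_subset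
      obtain ⟨S', hS'1, hS'2, hS'3⟩ := ih (S \ W) hPS1
        (fun a ha => (nb_mono G hsubS a).trans (hAS a ha))
        (fun v hv => hP v (hsubS hv))
        (by
          intro v hv
          have hvS : v ∈ S := hsubS hv
          by_cases hvM : v ∈ M
          · have h1 : nb G (S \ W) v ⊆ (nb G S v).erase (f v) := by
              intro u hu
              rw [mem_nb] at hu
              rw [mem_erase]
              refine ⟨?_, ?_⟩
              · rintro rfl
                have : f v ∈ W := mem_image_of_mem f hvM
                exact (mem_sdiff.1 hu.1).2 this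
              · rw [mem_nb]
                exact ⟨hsubS hu.1, hu.2⟩
            have h2 := card_le_card h1
            rw [card_erase_of_mem (hf v hvM).1] at h2
            have h3 := hS v hvS
            omega
          · have h1 := card_le_card (nb_mono G hsubS v)
            have h2 := hS v hvS
            have h3 : (nb G S v).card ≠ d + (L + 1) := by
              intro h
              exact hvM (by rw [hM, mem_filter]; exact ⟨hvS, h⟩)
            omega)
      refine ⟨S', hS'1.trans hsubS, ?_, hS'3⟩
      have hsub : S \ S' ⊆ W ∪ ((S \ W) \ S') := by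
        intro x hx
        rw [mem_sdiff] at hx
        rw [mem_union, mem_sdiff, mem_sdiff]
        by_cases hxW : x ∈ W
        · exact Or.inl hxW
        · exact Or.inr ⟨⟨hx.1, hxW⟩, hx.2⟩
      have h1 := card_le_card hsub
      have h2 := card_union_le W ((S \ W) \ S')
      calc (S \ S').card ≤ W.card + ((S \ W) \ S').card := h1.trans h2
        _ ≤ k + k * L := Nat.add_le_add hWcard hS'2
        _ = k * (L + 1) := by ring

/-- Ramsey: a set with at least `2 ^ (a + b)` elements contains a clique of size `a` or an
independent set of size `b`. -/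
theorem ramsey_aux : ∀ (n a b : ℕ), a + b = n → ∀ B : Finset V, 2 ^ n ≤ B.card →
    (∃ A ⊆ B, A.card = a ∧ ∀ x ∈ A, ∀ y ∈ A, x ≠ y → G.Adj x y) ∨
    (∃ A ⊆ B, A.card = b ∧ ∀ x ∈ A, ∀ y ∈ A, ¬ G.Adj x y) := by
  intro n
  induction n with
  | zero =>
    intro a b hab B hB
    left
    exact ⟨∅, empty_subset _, by simp; omega, by simp⟩
  | succ n ih =>
    intro a b hab B hB
    rcases Nat.eq_zero_or_pos a with ha | ha
    · left
      exact ⟨∅, empty_subset _, by simp [ha], by simp⟩
    rcases Nat.eq_zero_or_pos b with hb | hb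
    · right
      exact ⟨∅, empty_subset _, by simp [hb], by simp⟩
    have hne : B.Nonempty := by
      rw [← card_pos]
      exact lt_of_lt_of_le (by positivity) hB
    obtain ⟨v, hv⟩ := hne
    set B1 := (B.erase v).filter (fun u => G.Adj v u) with hB1
    set B2 := (B.erase v).filter (fun u => ¬ G.Adj v u) with hB2
    have hcard : B1.card + B2.card = (B.erase v).card := by
      rw [hB1, hB2]
      exact card_filter_add_card_filter_not _
    rw [card_erase_of_mem hv] at hcard
    have hpow : 2 ^ (n + 1) = 2 ^ n + 2 ^ n := by ring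
    by_cases h1 : 2 ^ n ≤ B1.card
    · rcases ih (a - 1) b (by omega) B1 h1 with ⟨A, hA, hAc, hAa⟩ | ⟨A, hA, hAc, hAa⟩
      · left
        have hvA : v ∉ A := by
          intro h
          have := hA h
          rw [hB1, mem_filter, mem_erase] at this
          exact this.1.1 rfl
        refine ⟨insert v A, ?_, ?_, ?_⟩
        · intro x hx
          rw [mem_insert] at hx
          rcases hx with rfl | hx
          · exact hv
          · have := hA hx
            rw [hB1, mem_filter, mem_erase] at this
            exact this.1.2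
        · rw [card_insert_of_notMem hvA, hAc]
          omega
        · intro x hx y hy hxy
          rw [mem_insert] at hx hy
          rcases hx with rfl | hx <;> rcases hy with rfl | hy
          · exact absurd rfl hxy
          · have := hA hy
            rw [hB1, mem_filter] at this
            exact this.2
          · have := hA hx
            rw [hB1, mem_filter] at this
            exact this.2.symm
          · exact hAa x hx y hy hxy
      · right
        refine ⟨A, ?_, hAc, hAa⟩
        intro x hx
        have := hA hx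
        rw [hB1, mem_filter, mem_erase] at this
        exact this.1.2
    · have h2 : 2 ^ n ≤ B2.card := by omega
      rcases ih a (b - 1) (by omega) B2 h2 with ⟨A, hA, hAc, hAa⟩ | ⟨A, hA, hAc, hAa⟩
      · left
        refine ⟨A, ?_, hAc, hAa⟩
        intro x hx
        have := hA hx
        rw [hB2, mem_filter, mem_erase] at this
        exact this.1.2
      · right
        have hvA : v ∉ A := by
          intro h
          have := hA h
          rw [hB2, mem_filter, mem_erase] at this
          exact this.1.1 rfl
        refine ⟨insert v A, ?_, ?_, ?_⟩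
        · intro x hx
          rw [mem_insert] at hx
          rcases hx with rfl | hx
          · exact hv
          · have := hA hx
            rw [hB2, mem_filter, mem_erase] at this
            exact this.1.2
        · rw [card_insert_of_notMem hvA, hAc]
          omega
        · intro x hx y hy
          rw [mem_insert] at hx hy
          rcases hx with rfl | hx <;> rcases hy with rfl | hy
          · exact G.loopless.irrefl _
          · have := hA hy
            rw [hB2, mem_filter] at this
            exact this.2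
          · have := hA hx
            rw [hB2, mem_filter] at this
            exact fun h => this.2 h.symm
          · exact hAa x hx y hy

theorem ramsey (k : ℕ) (B : Finset V) (hB : 2 ^ (2 * k) ≤ B.card) :
    ∃ A ⊆ B, A.card = k ∧ ((∀ x ∈ A, ∀ y ∈ A, x ≠ y → G.Adj x y) ∨
      (∀ x ∈ A, ∀ y ∈ A, ¬ G.Adj x y)) := by
  rcases ramsey_aux G (2 * k) k k (by ring) B hB with ⟨A, hA, hAc, hAa⟩ | ⟨A, hA, hAc, hAa⟩
  · exact ⟨A, hA, hAc, Or.inl hAa⟩
  · exact ⟨A, hA, hAc, Or.inr hAa⟩

/-- two disjoint finite sets, nbhd count in the union -/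
lemma nb_union_card_le (S T : Finset V) (v : V) :
    (nb G (S ∪ T) v).card ≤ (nb G S v).card + (nb G T v).card := by
  have : nb G (S ∪ T) v = nb G S v ∪ nb G T v := by
    simp [nb, filter_union]
  rw [this]
  exact card_union_le _ _

omit [DecidableEq V] in
lemma nb_card_le (S : Finset V) (v : V) : (nb G S v).card ≤ S.card := card_filter_le _ _

variable [Fintype V]

/-- near twins forming a clique -/
theorem twins_clique (k D x : ℕ) (hdeg : ∀ v, (nb G univ v).card ≤ D) (A N0 : Finset V)
    (hA : A.card = k) (hcl : ∀ a ∈ A, ∀ b ∈ A, a ≠ b → G.Adj a b)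
    (hN0 : ∀ a ∈ A, ∀ w ∈ N0, G.Adj a w) (hx : D ≤ N0.card + x) :
    ∃ S : Finset V, (univ \ S).card ≤ 2 * k * x ∧ Good G k S := by
  classical
  have hdisj : Disjoint N0 A := by
    rw [disjoint_left]
    intro a ha ha'
    exact G.loopless.irrefl a (hN0 a ha' a ha)
  set U := A.biUnion (fun a => nb G univ a) with hU
  set Z := (U \ A) \ N0 with hZ
  set P := N0 ∪ A with hP
  set d := N0.card + (k - 1) with hd
  have hnbP : ∀ a ∈ A, nb G P a = N0 ∪ A.erase a := by
    intro a ha
    ext u
    rw [mem_nb, hP, mem_union, mem_union, mem_erase]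
    constructor
    · rintro ⟨h1 | h1, h2⟩
      · exact Or.inl h1
      · exact Or.inr ⟨h2.ne', h1⟩
    · rintro (h1 | ⟨h1, h2⟩)
      · exact ⟨Or.inl h1, hN0 a ha u h1⟩
      · exact ⟨Or.inr h2, hcl a ha u h2 h1.symm⟩
  have hnbPc : ∀ a ∈ A, (nb G P a).card = d := by
    intro a ha
    rw [hnbP a ha, card_union_of_disjoint (hdisj.mono_right (erase_subset _ _)),
      card_erase_of_mem ha, hA]
  have hPS : P ⊆ univ \ Z := by
    intro p hp
    rw [mem_sdiff]
    refine ⟨mem_univ _, fun hpZ => ?_⟩
    rw [hZ, mem_sdiff, mem_sdiff] at hpZ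
    rw [hP, mem_union] at hp
    rcases hp with h | h
    · exact hpZ.2 h
    · exact hpZ.1.2 h
  have hZc : Z.card ≤ k * x := by
    have h1 : Z ⊆ A.biUnion (fun a => nb G univ a \ P) := by
      intro w hw
      rw [hZ, mem_sdiff, mem_sdiff, hU, mem_biUnion] at hw
      obtain ⟨⟨⟨a, ha, haw⟩, hwA⟩, hwN⟩ := hw
      rw [mem_biUnion]
      refine ⟨a, ha, ?_⟩
      rw [mem_sdiff, hP, mem_union]
      exact ⟨haw, fun h => h.elim hwN hwA⟩
    have h2 : ∀ a ∈ A, (nb G univ a \ P).card ≤ x := by
      intro a ha
      have h3 : nb G univ a \ P ∪ nb G P a ⊆ nb G univ a := by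
        intro u hu
        rw [mem_union] at hu
        rcases hu with h | h
        · exact (mem_sdiff.1 h).1
        · exact nb_mono G (subset_univ _) a h
      have h4 : Disjoint (nb G univ a \ P) (nb G P a) := by
        rw [disjoint_left]
        intro u hu hu'
        exact (mem_sdiff.1 hu).2 ((mem_nb G).1 hu').1
      have h5 := card_le_card h3
      rw [card_union_of_disjoint h4, hnbPc a ha] at h5
      have h6 := hdeg a
      omega
    calc Z.card ≤ _ := card_le_card h1
      _ ≤ ∑ a ∈ A, (nb G univ a \ P).card := card_biUnion_le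
      _ ≤ ∑ a ∈ A, x := sum_le_sum h2
      _ = k * x := by rw [sum_const, hA, smul_eq_mul]
  obtain ⟨S', hS'1, hS'2, hS'3⟩ := raise G k d P A subset_union_right hA.ge hnbPc x (univ \ Z) hPS
    (by
      intro a ha u hu
      rw [mem_nb, mem_sdiff] at hu
      by_contra hcon
      apply hu.1.2
      rw [hZ, mem_sdiff, mem_sdiff, hU, mem_biUnion]
      rw [hP, mem_union] at hcon
      push Not at hcon
      exact ⟨⟨⟨a, ha, by rw [mem_nb]; exact ⟨mem_univ _, hu.2⟩⟩, hcon.2⟩, hcon.1⟩)
    (by
      intro v hv
      by_cases hvA : v ∈ A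
      · exact (hnbPc v hvA).le
      by_cases hvN : v ∈ N0
      · by_cases hk : k = 0
        · subst hk
          rw [card_eq_zero] at hA
          subst hA
          simp only [hd, hP, union_empty]
          exact nb_card_le G _ _
        have h1 : nb G P v ⊆ P.erase v := by
          intro u hu
          rw [mem_nb] at hu
          rw [mem_erase]
          exact ⟨hu.2.ne', hu.1⟩
        have h2 := card_le_card h1
        rw [card_erase_of_mem (by rw [hP, mem_union]; exact Or.inl hvN), hP,
          card_union_of_disjoint hdisj, hA, ← hP] at h2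
        omega
      · have h1 : nb G P v ⊆ N0 := by
          intro u hu
          rw [mem_nb, hP, mem_union] at hu
          rcases hu.1 with h | h
          · exact h
          · exfalso
            apply (mem_sdiff.1 hv).2
            rw [hZ, mem_sdiff, mem_sdiff, hU, mem_biUnion]
            exact ⟨⟨⟨u, h, by rw [mem_nb]; exact ⟨mem_univ _, hu.2.symm⟩⟩, hvA⟩, hvN⟩
        have h2 := card_le_card h1
        omega)
    (by
      intro v hv
      have h1 := card_le_card (nb_mono G (subset_univ (univ \ Z)) v)
      have h2 := hdeg v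
      omega)
  refine ⟨S', ?_, hS'3⟩
  calc (univ \ S').card ≤ Z.card + ((univ \ Z) \ S').card := sdiff_card_aux _ _ _
    _ ≤ k * x + k * x := Nat.add_le_add hZc hS'2
    _ = 2 * k * x := by ring

/-- near twins forming an independent set, when the common neighbourhood has no vertex of too
large degree inside -/
theorem twins_indep (k D x : ℕ) (hdeg : ∀ v, (nb G univ v).card ≤ D) (A N1 : Finset V)
    (hA : A.card = k) (hind : ∀ a ∈ A, ∀ b ∈ A, ¬ G.Adj a b)
    (hN1 : ∀ a ∈ A, ∀ w ∈ N1, G.Adj a w) (hx : D ≤ N1.card + x)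
    (hbad : ∀ v ∈ N1, k ≤ (N1 \ nb G N1 v).card) :
    ∃ S : Finset V, (univ \ S).card ≤ 2 * k * x ∧ Good G k S := by
  classical
  have hdisj : Disjoint N1 A := by
    rw [disjoint_left]
    intro a ha ha'
    exact G.loopless.irrefl a (hN1 a ha' a ha)
  set U := A.biUnion (fun a => nb G univ a) with hU
  set Z := U \ N1 with hZ
  set P := N1 ∪ A with hP
  set d := N1.card with hd
  have hnbP : ∀ a ∈ A, nb G P a = N1 := by
    intro a ha
    ext u
    rw [mem_nb, hP, mem_union]
    constructor
    · rintro ⟨h1 | h1, h2⟩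
      · exact h1
      · exact absurd h2 (hind a ha u h1)
    · intro h1
      exact ⟨Or.inl h1, hN1 a ha u h1⟩
  have hnbPc : ∀ a ∈ A, (nb G P a).card = d := by
    intro a ha
    rw [hnbP a ha]
  have hPS : P ⊆ univ \ Z := by
    intro p hp
    rw [mem_sdiff]
    refine ⟨mem_univ _, fun hpZ => ?_⟩
    rw [hZ, mem_sdiff, hU, mem_biUnion] at hpZ
    rw [hP, mem_union] at hp
    rcases hp with h | h
    · exact hpZ.2 h
    · obtain ⟨⟨a, ha, hap⟩, _⟩ := hpZ
      exact hind a ha p h ((mem_nb G).1 hap).2
  have hZc : Z.card ≤ k * x := by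
    have h1 : Z ⊆ A.biUnion (fun a => nb G univ a \ P) := by
      intro w hw
      rw [hZ, mem_sdiff, hU, mem_biUnion] at hw
      obtain ⟨⟨a, ha, haw⟩, hwN⟩ := hw
      rw [mem_biUnion]
      refine ⟨a, ha, ?_⟩
      rw [mem_sdiff, hP, mem_union]
      exact ⟨haw, fun h => h.elim hwN (fun h' => hind a ha w h' ((mem_nb G).1 haw).2)⟩
    have h2 : ∀ a ∈ A, (nb G univ a \ P).card ≤ x := by
      intro a ha
      have h3 : nb G univ a \ P ∪ nb G P a ⊆ nb G univ a := by
        intro u hu
        rw [mem_union] at hu
        rcases hu with h | h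
        · exact (mem_sdiff.1 h).1
        · exact nb_mono G (subset_univ _) a h
      have h4 : Disjoint (nb G univ a \ P) (nb G P a) := by
        rw [disjoint_left]
        intro u hu hu'
        exact (mem_sdiff.1 hu).2 ((mem_nb G).1 hu').1
      have h5 := card_le_card h3
      rw [card_union_of_disjoint h4, hnbPc a ha] at h5
      have h6 := hdeg a
      omega
    calc Z.card ≤ _ := card_le_card h1
      _ ≤ ∑ a ∈ A, (nb G univ a \ P).card := card_biUnion_le
      _ ≤ ∑ a ∈ A, x := sum_le_sum h2
      _ = k * x := by rw [sum_const, hA, smul_eq_mul]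
  obtain ⟨S', hS'1, hS'2, hS'3⟩ := raise G k d P A subset_union_right hA.ge hnbPc x (univ \ Z) hPS
    (by
      intro a ha u hu
      rw [mem_nb, mem_sdiff] at hu
      by_contra hcon
      apply hu.1.2
      rw [hZ, mem_sdiff, hU, mem_biUnion]
      rw [hP, mem_union] at hcon
      push Not at hcon
      exact ⟨⟨a, ha, by rw [mem_nb]; exact ⟨mem_univ _, hu.2⟩⟩, hcon.1⟩)
    (by
      intro v hv
      by_cases hvA : v ∈ A
      · exact (hnbPc v hvA).le
      by_cases hvN : v ∈ N1
      · have h1 := nb_union_card_le G N1 A v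
        have h2 := hbad v hvN
        have h3 := nb_card_le G A v
        have h4 : (N1 \ nb G N1 v).card + (nb G N1 v).card = N1.card :=
          card_sdiff_add_card_eq_card (filter_subset _ _)
        rw [← hP] at h1
        omega
      · have h1 : nb G P v ⊆ N1 := by
          intro u hu
          rw [mem_nb, hP, mem_union] at hu
          rcases hu.1 with h | h
          · exact h
          · exfalso
            apply (mem_sdiff.1 hv).2
            rw [hZ, mem_sdiff, hU, mem_biUnion]
            exact ⟨⟨u, h, by rw [mem_nb]; exact ⟨mem_univ _, hu.2.symm⟩⟩, hvN⟩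
        exact card_le_card h1)
    (by
      intro v hv
      have h1 := card_le_card (nb_mono G (subset_univ (univ \ Z)) v)
      have h2 := hdeg v
      omega)
  refine ⟨S', ?_, hS'3⟩
  calc (univ \ S').card ≤ Z.card + ((univ \ Z) \ S').card := sdiff_card_aux _ _ _
    _ ≤ k * x + k * x := Nat.add_le_add hZc hS'2
    _ = 2 * k * x := by ring

/-- peeling: either a large subset without bad vertices, or a clique with a large common
neighbourhood -/
theorem peel (k : ℕ) (N0 : Finset V) : ∀ j : ℕ,
    (∃ N1 ⊆ N0, N0.card ≤ N1.card + j * k ∧ ∀ v ∈ N1, k ≤ (N1 \ nb G N1 v).card) ∨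
    (∃ Q N1 : Finset V, N1 ⊆ N0 ∧ N0.card ≤ N1.card + j * k ∧ Q.card = j ∧
      (∀ a ∈ Q, ∀ b ∈ Q, a ≠ b → G.Adj a b) ∧ (∀ a ∈ Q, ∀ w ∈ N1, G.Adj a w)) := by
  intro j
  induction j with
  | zero =>
    right
    exact ⟨∅, N0, Subset.rfl, by simp, by simp, by simp, by simp⟩
  | succ j ih =>
    rcases ih with ⟨N1, h1, h2, h3⟩ | ⟨Q, N1, h1, h2, h3, h4, h5⟩
    · left
      exact ⟨N1, h1, by nlinarith, h3⟩
    · by_cases hb : ∀ v ∈ N1, k ≤ (N1 \ nb G N1 v).card
      · left
        exact ⟨N1, h1, by nlinarith, hb⟩
      · right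
        push Not at hb
        obtain ⟨v, hv, hvb⟩ := hb
        have hvQ : v ∉ Q := fun h => G.loopless.irrefl v (h5 v h v hv)
        refine ⟨insert v Q, nb G N1 v, (filter_subset _ _).trans h1, ?_, ?_, ?_, ?_⟩
        · have h6 : (N1 \ nb G N1 v).card + (nb G N1 v).card = N1.card :=
            card_sdiff_add_card_eq_card (filter_subset _ _)
          nlinarith
        · rw [card_insert_of_notMem hvQ, h3]
        · intro a ha b hb hab
          rw [mem_insert] at ha hb
          rcases ha with rfl | ha <;> rcases hb with rfl | hb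
          · exact absurd rfl hab
          · exact (h5 b hb _ hv).symm
          · exact h5 a ha _ hv
          · exact h4 a ha b hb hab
        · intro a ha w hw
          rw [mem_insert] at ha
          rw [mem_nb] at hw
          rcases ha with rfl | ha
          · exact hw.2
          · exact h5 a ha w hw.1

/-- near twins -/
theorem twins (k D x : ℕ) (hdeg : ∀ v, (nb G univ v).card ≤ D) (A N0 : Finset V)
    (hA : A.card = k)
    (hcl : (∀ a ∈ A, ∀ b ∈ A, a ≠ b → G.Adj a b) ∨ (∀ a ∈ A, ∀ b ∈ A, ¬ G.Adj a b))
    (hN0 : ∀ a ∈ A, ∀ w ∈ N0, G.Adj a w) (hx : D ≤ N0.card + x) :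
    ∃ S : Finset V, (univ \ S).card ≤ 2 * k * (x + k * k) ∧ Good G k S := by
  rcases hcl with h | h
  · obtain ⟨S, h1, h2⟩ := twins_clique G k D x hdeg A N0 hA h hN0 hx
    exact ⟨S, h1.trans (Nat.mul_le_mul_left _ (by omega)), h2⟩
  · rcases peel G k N0 k with ⟨N1, h1, h2, h3⟩ | ⟨Q, N1, h1, h2, h3, h4, h5⟩
    · exact twins_indep G k D (x + k * k) hdeg A N1 hA h (fun a ha w hw => hN0 a ha w (h1 hw))
        (by omega) h3
    · exact twins_clique G k D (x + k * k) hdeg Q N1 h3 h4 h5 (by omega)

omit [Fintype V] in
/-- prescan -/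
theorem prescan (K R : ℕ) : ∀ (j : ℕ) (S : Finset V), (∀ v ∈ S, (nb G S v).card ≤ j * R) →
    K * (j + 1) ≤ S.card →
    ∃ S0 ⊆ S, (S \ S0).card ≤ K * j ∧ ∃ D : ℕ, (∀ v ∈ S0, (nb G S0 v).card ≤ D) ∧
      ∃ T ⊆ S0, T.card = K ∧ ∀ v ∈ T, D ≤ (nb G S0 v).card + R := by
  intro j
  induction j with
  | zero =>
    intro S hS hcard
    obtain ⟨T, hT, hTc⟩ := exists_subset_card_eq (n := K) (s := S) (by omega)
    exact ⟨S, Subset.rfl, by simp, 0, fun v hv => by simpa using hS v hv, T, hT, hTc, by simp⟩
  | succ j ih =>
    intro S hS hcard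
    set T := S.filter (fun v => (j + 1) * R ≤ (nb G S v).card + R) with hT
    by_cases hTK : K ≤ T.card
    · obtain ⟨T', hT', hTc'⟩ := exists_subset_card_eq hTK
      refine ⟨S, Subset.rfl, by simp, (j + 1) * R, hS, T', hT'.trans (filter_subset _ _), hTc', ?_⟩
      intro v hv
      have := hT' hv
      rw [hT, mem_filter] at this
      exact this.2
    · push Not at hTK
      obtain ⟨S0, h1, h2, D, h3, T', h4⟩ := ih (S \ T)
        (by
          intro v hv
          rw [mem_sdiff, hT, mem_filter] at hv
          have h1 : ¬ ((j + 1) * R ≤ (nb G S v).card + R) := fun h => hv.2 ⟨hv.1, h⟩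
          have h2 := card_le_card (nb_mono G (sdiff_subset (s := S) (t := T)) v)
          have h3 : (j + 1) * R = j * R + R := by ring
          omega)
        (by
          have h1 := le_card_sdiff T S
          have h2 : K * (j + 1 + 1) = K * (j + 1) + K := by ring
          omega)
      refine ⟨S0, h1.trans sdiff_subset, ?_, D, h3, T', h4⟩
      have hsub : S \ S0 ⊆ T ∪ ((S \ T) \ S0) := by
        intro w hw
        rw [mem_sdiff] at hw
        rw [mem_union, mem_sdiff, mem_sdiff]
        by_cases h : w ∈ T
        · exact Or.inl h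
        · exact Or.inr ⟨⟨hw.1, h⟩, hw.2⟩
      calc (S \ S0).card ≤ _ := card_le_card hsub
        _ ≤ T.card + ((S \ T) \ S0).card := card_union_le _ _
        _ ≤ K + K * j := Nat.add_le_add hTK.le h2
        _ = K * (j + 1) := by ring

end Pool.Agent.MaxDeg
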