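import Mathlib

set_option autoImplicit false

/-!
A random subset satisfying finitely many linear inequalities, by exponential moments.
-/

namespace Pool.Agent.MaxDeg

open Finset

lemma exp_bound (z c : ℝ) (hz0 : 0 ≤ z) (hc : |c| ≤ 1) :
    z * Real.exp c + (1 - z) ≤ Real.exp (z * (c + c ^ 2)) := by
  have h1 : Real.exp c ≤ 1 + c + c ^ 2 := by
    have := Real.abs_exp_sub_one_sub_id_le hc
    have h2 := (abs_le.1 this).2
    linarith
  have h2 := Real.add_one_le_exp (z * (c + c ^ 2))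
  nlinarith [mul_le_mul_of_nonneg_left h1 hz0]

theorem chernoff {V ι : Type} [DecidableEq V] (W : Finset V) (I : Finset ι) (z : V → ℝ)
    (hz0 : ∀ w ∈ W, 0 ≤ z w) (hz1 : ∀ w ∈ W, z w ≤ 1) (c : ι → V → ℝ)
    (hc : ∀ i ∈ I, ∀ w ∈ W, |c i w| ≤ 1) (t : ι → ℝ)
    (h : ∑ i ∈ I, Real.exp (∑ w ∈ W, z w * (c i w + (c i w) ^ 2) - t i) < 1) :
    ∃ H ⊆ W, ∀ i ∈ I, ∑ w ∈ H, c i w < t i := by
  by_contra hcon
  push Not at hcon
  have hP : ∑ H ∈ W.powerset, (∏ w ∈ H, z w) * (∏ w ∈ W \ H, (1 - z w)) = 1 := by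
    rw [← prod_add]
    simp
  have hstep : ∀ H ∈ W.powerset, (∏ w ∈ H, z w) * (∏ w ∈ W \ H, (1 - z w)) ≤
      ∑ i ∈ I, Real.exp (- t i) *
        ((∏ w ∈ H, (z w * Real.exp (c i w))) * (∏ w ∈ W \ H, (1 - z w))) := by
    intro H hH
    rw [mem_powerset] at hH
    obtain ⟨i, hi, hti⟩ := hcon H hH
    have hnn : ∀ j ∈ I, 0 ≤ Real.exp (- t j) *
        ((∏ w ∈ H, (z w * Real.exp (c j w))) * (∏ w ∈ W \ H, (1 - z w))) := by
      intro j _
      refine mul_nonneg (Real.exp_pos _).le (mul_nonneg ?_ ?_)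
      · exact prod_nonneg fun w hw => mul_nonneg (hz0 w (hH hw)) (Real.exp_pos _).le
      · exact prod_nonneg fun w hw => by
          have := hz1 w (mem_sdiff.1 hw).1
          linarith
    refine le_trans ?_ (single_le_sum hnn hi)
    rw [prod_mul_distrib, ← Real.exp_sum]
    have h1 : (1 : ℝ) ≤ Real.exp (- t i) * Real.exp (∑ w ∈ H, c i w) := by
      rw [← Real.exp_add]
      apply Real.one_le_exp
      linarith
    have h2 : 0 ≤ (∏ w ∈ H, z w) * (∏ w ∈ W \ H, (1 - z w)) := by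
      refine mul_nonneg ?_ ?_
      · exact prod_nonneg fun w hw => hz0 w (hH hw)
      · exact prod_nonneg fun w hw => by
          have := hz1 w (mem_sdiff.1 hw).1
          linarith
    calc (∏ w ∈ H, z w) * (∏ w ∈ W \ H, (1 - z w))
        ≤ (Real.exp (- t i) * Real.exp (∑ w ∈ H, c i w)) *
          ((∏ w ∈ H, z w) * (∏ w ∈ W \ H, (1 - z w))) := le_mul_of_one_le_left h2 h1
      _ = _ := by ring
  have h1 : (1 : ℝ) ≤ ∑ i ∈ I, Real.exp (- t i) * ∏ w ∈ W, (z w * Real.exp (c i w) + (1 - z w)) := by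
    calc (1 : ℝ) = ∑ H ∈ W.powerset, (∏ w ∈ H, z w) * (∏ w ∈ W \ H, (1 - z w)) := hP.symm
      _ ≤ ∑ H ∈ W.powerset, ∑ i ∈ I, Real.exp (- t i) *
        ((∏ w ∈ H, (z w * Real.exp (c i w))) * (∏ w ∈ W \ H, (1 - z w))) := sum_le_sum hstep
      _ = ∑ i ∈ I, Real.exp (- t i) * ∏ w ∈ W, (z w * Real.exp (c i w) + (1 - z w)) := by
          rw [sum_comm]
          refine sum_congr rfl fun i _ => ?_
          rw [prod_add, mul_sum]
  have h2 : ∑ i ∈ I, Real.exp (- t i) * ∏ w ∈ W, (z w * Real.exp (c i w) + (1 - z w)) ≤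
      ∑ i ∈ I, Real.exp (∑ w ∈ W, z w * (c i w + (c i w) ^ 2) - t i) := by
    refine sum_le_sum fun i hi => ?_
    rw [sub_eq_neg_add, Real.exp_add]
    refine mul_le_mul_of_nonneg_left ?_ (Real.exp_pos _).le
    rw [Real.exp_sum]
    refine prod_le_prod ?_ ?_
    · intro w hw
      have := hz1 w hw
      have := mul_nonneg (hz0 w hw) (Real.exp_pos (c i w)).le
      linarith
    · intro w hw
      exact exp_bound _ _ (hz0 w hw) (hc i hi w hw)
  linarith

end Pool.Agent.MaxDeg
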