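import Pool.Agent.MaxDeg.Step

set_option autoImplicit false

/-!
The core theorem: `K` vertices within `R` of the maximum degree give `k` vertices of maximum
degree after deleting `O(R)` vertices, where `R` is at least the square root of the order.
-/

namespace Pool.Agent.MaxDeg

open Finset

/-- choice of the number of classes -/
lemma exists_Tn (k1 : ℕ) (lam : ℝ) (hlam : 1 < lam) :
    ∃ Tn : ℕ, 1 ≤ Tn ∧ 1536 * ((k1 * Tn + 1 : ℕ) : ℝ) ^ 2 < lam ^ Tn := by
  have h1 := tendsto_pow_const_div_const_pow_of_one_lt 2 hlam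
  have hpos : (0 : ℝ) < 1 / (1536 * (k1 + 1) ^ 2) := by positivity
  have h2 := (h1.eventually_lt_const hpos).and (Filter.eventually_ge_atTop 1)
  obtain ⟨n, hn, hn1⟩ := h2.exists
  refine ⟨n, hn1, ?_⟩
  rw [div_lt_div_iff₀ (by positivity) (by positivity)] at hn
  have hn1' : (1 : ℝ) ≤ n := by exact_mod_cast hn1
  have h3 : (((k1 * n + 1 : ℕ) : ℝ)) ≤ (k1 + 1) * n := by
    push_cast
    nlinarith
  have h4 : (((k1 * n + 1 : ℕ) : ℝ)) ^ 2 ≤ ((k1 + 1) * n) ^ 2 := by
    gcongr
  nlinarith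

section

variable {V : Type} [DecidableEq V] (G : SimpleGraph V) [DecidableRel G.Adj] [Fintype V]

/-- the endgame: a tight cluster -/
theorem endgame (k D0 K : ℕ) (hk : 1 ≤ k) (hdeg : ∀ v, (nb G univ v).card ≤ D0)
    (hK : 2 ^ (2 * k) ≤ K) (T : Finset V) (hT : T.card = K) (X Y : ℝ) (hX : 0 ≤ X) (hY : 0 ≤ Y)
    (hd : ∀ u ∈ T, ∀ v ∈ T, dd G u v ≤ X) (he : ∀ u ∈ T, (D0 : ℝ) - ∑ w, ind G u w ≤ Y) :
    ∃ S : Finset V, ((univ \ S).card : ℝ) ≤ 2 * k * (Y + k * X + 1 + k * k) ∧ Good G k S := by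
  classical
  obtain ⟨A, hAT, hAk, hAcl⟩ := ramsey G k T (by rw [hT]; exact hK)
  have hAne : A.Nonempty := by
    rw [← card_pos, hAk]
    exact hk
  obtain ⟨a0, ha0⟩ := hAne
  set N0 := univ.filter (fun w => ∀ a ∈ A, G.Adj a w) with hN0
  set x := ⌈Y + k * X⌉₊ with hx
  have hx0 : (0 : ℝ) ≤ Y + k * X := by positivity
  have hdeg0 : ∑ w, ind G a0 w ≤ N0.card + k * X := by
    have h1 : ∀ w, ind G a0 w ≤ (if w ∈ N0 then (1 : ℝ) else 0) +
        ∑ a ∈ A, (ind G a0 w - ind G a w) ^ 2 := by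
      intro w
      have hnn : 0 ≤ ∑ a ∈ A, (ind G a0 w - ind G a w) ^ 2 := sum_nonneg fun _ _ => sq_nonneg _
      by_cases hw : w ∈ N0
      · rw [if_pos hw]
        have := ind_le_one G a0 w
        linarith
      · rw [if_neg hw, zero_add]
        by_cases h0 : G.Adj a0 w
        · rw [hN0, mem_filter] at hw
          push Not at hw
          obtain ⟨a, ha, haw⟩ := hw (mem_univ w)
          have h2 : (ind G a0 w - ind G a w) ^ 2 ≤ ∑ a ∈ A, (ind G a0 w - ind G a w) ^ 2 :=
            single_le_sum (f := fun a => (ind G a0 w - ind G a w) ^ 2)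
              (fun _ _ => sq_nonneg _) ha
          have h3 : ind G a0 w = 1 := by unfold ind; rw [if_pos h0]
          have h4 : ind G a w = 0 := by unfold ind; rw [if_neg haw]
          rw [h3, h4] at h2
          rw [h3]
          rw [h3]  at hnn
          simpa [h3] using h2
        · have h3 : ind G a0 w = 0 := by unfold ind; rw [if_neg h0]
          rw [h3] at hnn ⊢
          exact hnn
    calc ∑ w, ind G a0 w ≤ ∑ w, ((if w ∈ N0 then (1 : ℝ) else 0) +
        ∑ a ∈ A, (ind G a0 w - ind G a w) ^ 2) := sum_le_sum fun w _ => h1 w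
      _ = N0.card + ∑ a ∈ A, dd G a0 a := by
          rw [sum_add_distrib, sum_comm]
          congr 1
          rw [← sum_filter]
          simp
      _ ≤ N0.card + ∑ a ∈ A, X := by
          gcongr with a ha
          exact hd a0 (hAT ha0) a (hAT ha)
      _ = N0.card + k * X := by rw [sum_const, hAk, nsmul_eq_mul]
  have hxD : D0 ≤ N0.card + x := by
    have h1 := he a0 (hAT ha0)
    have h2 : Y + k * X ≤ x := Nat.le_ceil _
    have h3 : (D0 : ℝ) ≤ N0.card + x := by linarith
    exact_mod_cast h3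
  obtain ⟨S, hS1, hS2⟩ := twins G k D0 x hdeg A N0 hAk hAcl
    (by
      intro a ha w hw
      rw [hN0, mem_filter] at hw
      exact hw.2 a ha) hxD
  refine ⟨S, ?_, hS2⟩
  have h1 : ((univ \ S).card : ℝ) ≤ 2 * k * (x + k * k) := by exact_mod_cast hS1
  have h2 : (x : ℝ) ≤ Y + k * X + 1 := (Nat.ceil_lt_add_one hx0).le
  calc ((univ \ S).card : ℝ) ≤ 2 * k * (x + k * k) := h1
    _ ≤ 2 * k * (Y + k * X + 1 + k * k) := by gcongr

end

theorem core (k : ℕ) (hk : 1 ≤ k) : ∃ (K : ℕ) (C R0 : ℝ), 1 ≤ K ∧ 0 ≤ C ∧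
    ∀ {V : Type} [DecidableEq V] (G : SimpleGraph V) [DecidableRel G.Adj] [Fintype V]
      (D0 : ℕ) (R : ℝ), R0 ≤ R → (Fintype.card V : ℝ) ≤ R ^ 2 →
      (∀ v, (nb G univ v).card ≤ D0) → ∀ T : Finset V, T.card = K →
      (∀ v ∈ T, (D0 : ℝ) ≤ (nb G univ v).card + R) →
      ∃ S : Finset V, ((univ \ S).card : ℝ) ≤ C * R ∧ Good G k S := by
  obtain ⟨c0, hc0⟩ := tie k
  set c1 := max c0 1 with hc1def
  have hc1 : 1 ≤ c1 := le_max_right _ _
  have hc1' : (1 : ℝ) ≤ c1 := by exact_mod_cast hc1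
  have hc10 : (0 : ℝ) < c1 := by linarith
  have hlam1 : (1 : ℝ) < 1 + 1 / (64 * c1) := by
    have : 0 < 1 / (64 * (c1 : ℝ)) := by positivity
    linarith
  obtain ⟨Tn, hTn1, hTn⟩ := exists_Tn (2 ^ (2 * k)) _ hlam1
  set K := 2 ^ (2 * k) * Tn + 1 with hKdef
  have hK : 1 ≤ K := by omega
  have hKpow : 2 ^ (2 * k) ≤ K := by
    have : 2 ^ (2 * k) * 1 ≤ 2 ^ (2 * k) * Tn := Nat.mul_le_mul_left _ hTn1
    omega
  have hK' : (1 : ℝ) ≤ K := by exact_mod_cast hK
  have hK0 : (0 : ℝ) < K := by linarith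
  have hk' : (1 : ℝ) ≤ k := by exact_mod_cast hk
  set CC : ℝ := c1 * 2 ^ 20 * (K : ℝ) ^ 3 with hCC
  have hCC1 : K ≤ CC := by
    rw [hCC]
    have h1 : (K : ℝ) ≤ (K : ℝ) ^ 3 := by
      nlinarith [one_le_pow₀ hK' (n := 2)]
    nlinarith [mul_le_mul hc1' h1 hK0.le hc10.le]
  have hCC0 : 0 < CC := by linarith
  -- gamma and thresholds
  set β : ℝ := 1 / (1024 * K ^ 2) / (2 ^ 20 * K * c1 ^ 2) / (512 * K ^ 2) with hβ
  have hβ0 : 0 < β := by positivity
  set γ : ℝ := β * (3 * K) with hγ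
  have hγ0 : 0 < γ := by positivity
  set t1 : ℝ := (6 * K + k) * (512 * K ^ 2 * (256 * c1)) / (3 * K) with ht1
  set t2 : ℝ := 6 * (k + 1) / γ ^ 3 + 1 with ht2
  set t0 : ℝ := max 1 (max t1 t2) with ht0
  set Cw : ℝ := (k + 1) * (8 * k + 13) * (3 * K) with hCw
  set Ce : ℝ := 2 * k * (12 * K + k * (2 / K * CC) + 1 + k * k) with hCe
  refine ⟨K, Cw + Ce, max (t0 ^ 4) (4 * CC), hK, by positivity, ?_⟩
  intro V _ G _ _ D0 R hRR hn hdeg T hT hTe
  have hRt : t0 ^ 4 ≤ R := (le_max_left _ _).trans hRR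
  have hRC : 4 * CC ≤ R := (le_max_right _ _).trans hRR
  have ht01 : 1 ≤ t0 := le_max_left _ _
  have hR1 : 1 ≤ R := (one_le_pow₀ ht01).trans hRt
  have hR0 : 0 < R := by linarith
  -- fourth root of R
  obtain ⟨t, ht0t, ht4⟩ : ∃ t : ℝ, t0 ≤ t ∧ t ^ 4 = R := by
    refine ⟨Real.sqrt (Real.sqrt R), ?_, ?_⟩
    · apply Real.le_sqrt_of_sq_le
      apply Real.le_sqrt_of_sq_le
      calc (t0 ^ 2) ^ 2 = t0 ^ 4 := by ring
        _ ≤ R := hRt
    · calc Real.sqrt (Real.sqrt R) ^ 4 = (Real.sqrt (Real.sqrt R) ^ 2) ^ 2 := by ring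
        _ = R := by
          rw [Real.sq_sqrt (Real.sqrt_nonneg R), Real.sq_sqrt hR0.le]
  have ht1' : 1 ≤ t := ht01.trans ht0t
  have htpos : 0 < t := by linarith
  have htt1 : t1 ≤ t := ((le_max_left _ _).trans (le_max_right _ _)).trans ht0t
  have htt2 : t2 ≤ t := ((le_max_right _ _).trans (le_max_right _ _)).trans ht0t
  set E0 : ℝ := 3 * K * R with hE0
  have hE0pos : 0 < E0 := by positivity
  set E : ℕ → ℝ := fun m => E0 / 4 ^ m with hE
  set q : ℕ → ℝ := fun m => 4 / R * 64 ^ m with hq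
  have hEpos : ∀ m, 0 < E m := fun m => by simp only [hE]; positivity
  have hqpos : ∀ m, 0 < q m := fun m => by simp only [hq]; positivity
  have hEE0 : ∀ m, E m ≤ E0 := fun m => by
    simp only [hE]
    exact div_le_self hE0pos.le (one_le_pow₀ (by norm_num))
  have hEs : ∀ m, E (m + 1) = E m / 4 := fun m => by
    simp only [hE]
    rw [pow_succ]
    field_simp
  have hqs : ∀ m, q (m + 1) = 64 * q m := fun m => by
    simp only [hq]
    rw [pow_succ]
    ring
  have htie : ∀ (A : Finset V), A.card = k →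
      (∀ a ∈ A, ∀ b ∈ A, (nb G A a).card = (nb G A b).card) →
      ∀ (S : Finset V), A ⊆ S → ∀ s : ℕ,
      (∀ a ∈ A, ∀ b ∈ A, (nb G S a).card ≤ (nb G S b).card + s) →
      ∃ Y : Finset V, Y ⊆ S \ A ∧ Y.card ≤ c1 * s ∧
        ∀ a ∈ A, ∀ b ∈ A, (nb G (S \ Y) a).card = (nb G (S \ Y) b).card := by
    intro A hA hint S hAS s hs
    obtain ⟨Y, hY1, hY2, hY3⟩ := hc0 G S A hAS hA hint s hs
    exact ⟨Y, hY1, hY2.trans (Nat.mul_le_mul_right _ (le_max_left _ _)), hY3⟩
  -- consequences of being in the range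
  have hrange : ∀ m, CC * R * q m ≤ E m → (4 : ℝ) ^ m ≤ t := by
    intro m hm
    have h1 : 4 * CC * 256 ^ m ≤ 3 * K * R := by
      simp only [hE, hq] at hm
      rw [le_div_iff₀ (by positivity)] at hm
      have h2 : CC * R * (4 / R * 64 ^ m) * 4 ^ m = 4 * CC * (64 ^ m * 4 ^ m) := by
        field_simp
      rw [h2, ← mul_pow] at hm
      norm_num at hm
      exact hm
    have h3 : (256 : ℝ) ^ m ≤ R := by
      have h4 : 3 * (K : ℝ) * 256 ^ m ≤ 3 * K * R := by
        have h5 : 3 * (K : ℝ) * 256 ^ m ≤ 4 * CC * 256 ^ m := by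
          apply mul_le_mul_of_nonneg_right _ (by positivity)
          linarith
        linarith
      exact le_of_mul_le_mul_left h4 (by positivity)
    have h6 : ((4 : ℝ) ^ m) ^ 4 ≤ t ^ 4 := by
      rw [ht4, ← pow_mul, mul_comm m 4, pow_mul]
      norm_num
      exact h3
    exact le_of_pow_le_pow_left₀ (by norm_num) htpos.le h6
  have hElow : ∀ m, (4 : ℝ) ^ m ≤ t → 3 * K * t ^ 3 ≤ E m := by
    intro m hm
    simp only [hE]
    rw [le_div_iff₀ (by positivity), hE0, ← ht4]
    calc 3 * (K : ℝ) * t ^ 3 * 4 ^ m ≤ 3 * K * t ^ 3 * t := by gcongr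
      _ = 3 * K * t ^ 4 := by ring
  have hmlow : ∀ m : ℕ, (4 : ℝ) ^ m ≤ t → (m : ℝ) ≤ t := by
    intro m hm
    have h1 : m < 4 ^ m := Nat.lt_pow_self (by norm_num)
    have h2 : (m : ℝ) ≤ (4 : ℝ) ^ m := by exact_mod_cast h1.le
    linarith
  have hB1 : ∀ m : ℕ, CC * R * q m ≤ E m →
      2 * (K * ((m : ℝ) + 2)) + k ≤ E m / (512 * K ^ 2) / (256 * c1) := by
    intro m hm
    have h1 := hrange m hm
    have h2 := hElow m h1
    have h3 := hmlow m h1
    rw [div_div, le_div_iff₀ (by positivity)]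
    have h4 : 2 * ((K : ℝ) * (m + 2)) + k ≤ (6 * K + k) * t := by
      have h5 : (K : ℝ) * (m + 2) ≤ K * (3 * t) := by
        apply mul_le_mul_of_nonneg_left _ hK0.le
        linarith
      have h6 : (k : ℝ) ≤ k * t := le_mul_of_one_le_right (by linarith) ht1'
      linarith
    have h7 : (6 * (K : ℝ) + k) * (512 * K ^ 2 * (256 * c1)) ≤ t * (3 * K) := by
      rw [ht1, div_le_iff₀ (by positivity)] at htt1
      exact htt1
    calc (2 * ((K : ℝ) * (m + 2)) + k) * (512 * K ^ 2 * (256 * c1))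
        ≤ (6 * K + k) * t * (512 * K ^ 2 * (256 * c1)) := by gcongr
      _ = t * ((6 * K + k) * (512 * K ^ 2 * (256 * c1))) := by ring
      _ ≤ t * (t * (3 * K)) := by gcongr
      _ = 3 * K * t ^ 2 := by ring
      _ ≤ 3 * K * t ^ 3 := by
          gcongr
          norm_num
      _ ≤ E m := h2
  have hB2 : ∀ m : ℕ, CC * R * q m ≤ E m → ((k : ℝ) * Fintype.card V + 1) *
      Real.exp (-(1 / (1024 * K ^ 2) / (2 ^ 20 * K * c1 ^ 2) * (E m / (512 * K ^ 2)))) < 1 := by
    intro m hm
    have h1 := hrange m hm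
    have h2 := hElow m h1
    have h3 : 1 / (1024 * (K : ℝ) ^ 2) / (2 ^ 20 * K * c1 ^ 2) * (E m / (512 * K ^ 2)) =
        β * E m := by
      rw [hβ]; ring
    rw [h3, Real.exp_neg, ← div_eq_mul_inv, div_lt_one (Real.exp_pos _)]
    have h4 : γ * t ^ 3 ≤ β * E m := by
      rw [hγ, mul_assoc]
      exact mul_le_mul_of_nonneg_left h2 hβ0.le
    have h5 : (γ * t ^ 3) ^ 3 / 6 ≤ Real.exp (γ * t ^ 3) := by
      have := Real.pow_div_factorial_le_exp (x := γ * t ^ 3) (by positivity) 3
      simpa [Nat.factorial] using this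
    have h6 : (Fintype.card V : ℝ) ≤ t ^ 8 := by
      calc (Fintype.card V : ℝ) ≤ R ^ 2 := hn
        _ = t ^ 8 := by rw [← ht4]; ring
    have h7 : (1 : ℝ) ≤ t ^ 8 := one_le_pow₀ ht1'
    have h8 : 6 * ((k : ℝ) + 1) < t * γ ^ 3 := by
      have h9 : 6 * ((k : ℝ) + 1) / γ ^ 3 < t := by
        have : 6 * ((k : ℝ) + 1) / γ ^ 3 < t2 := by rw [ht2]; linarith
        linarith
      rwa [div_lt_iff₀ (by positivity)] at h9
    calc (k : ℝ) * Fintype.card V + 1 ≤ k * t ^ 8 + t ^ 8 := by
          have := mul_le_mul_of_nonneg_left h6 (by linarith : (0 : ℝ) ≤ k)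
          linarith
      _ = (k + 1) * t ^ 8 := by ring
      _ < t * γ ^ 3 / 6 * t ^ 8 := by
          apply mul_lt_mul_of_pos_right _ (by positivity)
          linarith
      _ = (γ * t ^ 3) ^ 3 / 6 := by ring
      _ ≤ Real.exp (γ * t ^ 3) := h5
      _ ≤ Real.exp (β * E m) := Real.exp_le_exp.2 h4
  -- the bound M0
  obtain ⟨M0, hM0⟩ : ∃ M0, ¬ (CC * R * q M0 ≤ E M0) := by
    obtain ⟨M, hM⟩ := pow_unbounded_of_one_lt t (by norm_num : (1 : ℝ) < 4)
    exact ⟨M, fun h => by
      have := hrange M h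
      linarith⟩
  have hiter : ∀ j m : ℕ, m + j = M0 → ∀ T : Finset V, St G D0 K E0 (E m) (q m) m T →
      CC * R * q m ≤ E m →
      ∃ S : Finset V, ((univ \ S).card : ℝ) ≤ (Cw + Ce) * R ∧ Good G k S := by
    intro j
    induction j with
    | zero =>
      intro m hm T _ hr
      rw [add_zero] at hm
      rw [hm] at hr
      exact absurd hr hM0
    | succ j ih =>
      intro m hm T hSt hr
      rcases step G k c1 D0 K Tn hk hc1 hK hdeg htie (by omega) (by rw [hKdef]; exact hTn) R E0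
        (E m) (q m) m hR0 hE0 (hqpos m) (hEpos m) (hEE0 m) hr (hB1 m hr) (hB2 m hr) T hSt with
        ⟨S, hS1, hS2⟩ | ⟨T', hSt', hd', he'⟩
      · refine ⟨S, hS1.trans ?_, hS2⟩
        have h1 : ((k : ℝ) + 1) * (8 * k + 13) * E0 = Cw * R := by
          rw [hCw, hE0]; ring
        rw [h1]
        have : 0 ≤ Ce * R := by positivity
        linarith
      · by_cases hr' : CC * R * q (m + 1) ≤ E (m + 1)
        · refine ih (m + 1) (by omega) T' ?_ hr'
          rw [hEs, hqs]
          exact hSt'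
        · push Not at hr'
          rw [hEs, hqs] at hr'
          have hT'K : T'.card = K := by
            obtain ⟨_, _, _, _, _, _, _, _, _, _, _, _, _, h, _⟩ := hSt'
            exact h
          obtain ⟨S, hS1, hS2⟩ := endgame G k D0 K hk hdeg hKpow T' hT'K
            (2 / K * CC * R) (4 * E0) (by positivity) (by positivity)
            (by
              intro u hu v hv
              have h1 := hd' u hu v hv
              have h2 : E m / (128 * K) ≤ q m * (2 / K * CC * R) := by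
                rw [div_le_iff₀ (by positivity)]
                have h3 : q m * (2 / K * CC * R) * (128 * K) = 4 * (CC * R * (64 * q m)) := by
                  field_simp
                  ring
                rw [h3]
                linarith
              exact le_of_mul_le_mul_left (h1.trans h2) (hqpos m))
            he'
          refine ⟨S, hS1.trans ?_, hS2⟩
          have h4 : 4 * E0 + k * (2 / K * CC * R) + 1 + k * k ≤
              (12 * K + k * (2 / K * CC) + 1 + k * k) * R := by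
            rw [hE0]
            have h5 : (1 : ℝ) + k * k ≤ (1 + k * k) * R :=
              le_mul_of_one_le_right (by positivity) hR1
            linarith
          have h6 : 2 * (k : ℝ) * (4 * E0 + k * (2 / K * CC * R) + 1 + k * k) ≤ Ce * R := by
            calc 2 * (k : ℝ) * (4 * E0 + k * (2 / K * CC * R) + 1 + k * k)
                ≤ 2 * k * ((12 * K + k * (2 / K * CC) + 1 + k * k) * R) := by gcongr
              _ = Ce * R := by rw [hCe]; ring
          have : 0 ≤ Cw * R := by positivity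
          linarith
  -- initial state
  have hindsum : ∀ v, ∑ w, ind G v w = ((nb G univ v).card : ℝ) := fun v => (card_nb G univ v).symm
  have hddle : ∀ u v : V, dd G u v ≤ R ^ 2 := by
    intro u v
    calc dd G u v ≤ ∑ w : V, (1 : ℝ) := by
          unfold dd
          refine sum_le_sum fun w _ => ?_
          unfold ind
          split_ifs <;> norm_num
      _ = Fintype.card V := by simp
      _ ≤ R ^ 2 := hn
  have hSt0 : St G D0 K E0 (E 0) (q 0) 0 T := by
    refine ⟨0, 0, fun _ => 0, univ, le_refl _, by have := hqpos 0; positivity, le_refl _, ?_,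
      fun _ => le_refl _, fun _ => by simp, ?_, by simp, subset_univ _, hT, ?_⟩
    · simp only [hE]
      simp
    · intro v _
      unfold lev
      have h1 : ((nb G univ v).card : ℝ) ≤ D0 := by exact_mod_cast hdeg v
      rw [hindsum]
      simp only [zero_mul, sum_const_zero]
      linarith
    · unfold KK lev
      have h1 : ∑ v ∈ T, ((1 + 0) * ((D0 : ℝ) - ∑ w, ind G v w) + ∑ w, (0 : ℝ) * ind G v w - 0) ≤
          K * R := by
        calc _ ≤ ∑ v ∈ T, R := by
              refine sum_le_sum fun v hv => ?_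
              have h2 := hTe v hv
              rw [hindsum]
              simp
              linarith
          _ = K * R := by rw [sum_const, hT, nsmul_eq_mul]
      have h2 : q 0 / (4 * K) * ∑ v ∈ T, ∑ v' ∈ T, dd G v v' ≤ K * R := by
        calc q 0 / (4 * K) * ∑ v ∈ T, ∑ v' ∈ T, dd G v v'
            ≤ q 0 / (4 * K) * ∑ v ∈ T, ∑ v' ∈ T, R ^ 2 := by
              have := hqpos 0
              gcongr with v _ v' _
              exact hddle v v'
          _ = K * R := by
              rw [sum_const, sum_const, hT, nsmul_eq_mul, nsmul_eq_mul]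
              simp only [hq]
              field_simp
      have h3 : E 0 = 3 * K * R := by simp [hE, hE0]
      rw [h3]
      have h5 : 0 ≤ (K : ℝ) * R := by positivity
      refine (add_le_add h1 h2).trans ?_
      linarith
  refine hiter M0 0 (by omega) T hSt0 ?_
  simp only [hE, hq, pow_zero, mul_one, div_one]
  rw [hE0]
  have h1 : CC * R * (4 / R) = 4 * CC := by field_simp
  rw [h1]
  nlinarith

end Pool.Agent.MaxDeg
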