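import Pool.Agent.MaxDeg.Win

set_option autoImplicit false

/-!
The iteration step: a minimiser of the clustering functional is either separated enough to win
or can be exchanged for a tighter cluster at a smaller scale.
-/

namespace Pool.Agent.MaxDeg

open Finset

variable {V : Type} [DecidableEq V] (G : SimpleGraph V) [DecidableRel G.Adj] [Fintype V]

omit [DecidableEq V] in
lemma dd_self (u : V) : dd G u u = 0 := by
  simp [dd]

omit [DecidableEq V] in
lemma dd_comm (u v : V) : dd G u v = dd G v u := by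
  unfold dd
  refine sum_congr rfl fun w _ => ?_
  ring

omit [DecidableEq V] in
lemma dd_nonneg (u v : V) : 0 ≤ dd G u v := sum_nonneg fun _ _ => sq_nonneg _

omit [DecidableEq V] in
lemma dd_triangle (u v w : V) : dd G u w ≤ dd G u v + dd G v w := by
  unfold dd
  rw [← sum_add_distrib]
  refine sum_le_sum fun x _ => ?_
  unfold ind
  split_ifs <;> norm_num

/-- the clustering functional -/
noncomputable def KK (ell : V → ℝ) (r : ℝ) (T : Finset V) : ℝ :=
  ∑ v ∈ T, ell v + r * ∑ v ∈ T, ∑ v' ∈ T, dd G v v'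

lemma KK_insert (ell : V → ℝ) (r : ℝ) (T : Finset V) (x : V) (hx : x ∉ T) :
    KK G ell r (insert x T) = ell x + 2 * r * ∑ b ∈ T, dd G x b + KK G ell r T := by
  unfold KK
  rw [sum_insert hx, sum_insert hx, sum_insert hx, dd_self]
  have h1 : ∑ v ∈ T, ∑ v' ∈ insert x T, dd G v v' =
      ∑ b ∈ T, dd G x b + ∑ v ∈ T, ∑ v' ∈ T, dd G v v' := by
    rw [← sum_add_distrib]
    refine sum_congr rfl fun v _ => ?_
    rw [sum_insert hx, dd_comm]
  rw [h1]
  ring

/-- the swap inequality for a minimiser -/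
lemma swap (ell : V → ℝ) (r : ℝ) (Vm B : Finset V) (hB : B ⊆ Vm)
    (hmin : ∀ B' : Finset V, B' ⊆ Vm → B'.card = B.card → KK G ell r B ≤ KK G ell r B')
    (v u : V) (hv : v ∈ B) (hu : u ∈ Vm) (huB : u ∉ B) :
    ell v + 2 * r * ∑ b ∈ B, dd G v b + 2 * r * dd G u v ≤ ell u + 2 * r * ∑ b ∈ B, dd G u b := by
  have hv' : v ∉ B.erase v := notMem_erase v B
  have hu' : u ∉ B.erase v := fun h => huB (erase_subset _ _ h)
  have h1 : insert v (B.erase v) = B := insert_erase hv
  have h2 := hmin (insert u (B.erase v))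
    (by
      intro w hw
      rw [mem_insert] at hw
      rcases hw with rfl | hw
      · exact hu
      · exact hB (erase_subset _ _ hw))
    (by
      rw [card_insert_of_notMem hu', card_erase_of_mem hv]
      have : 0 < B.card := card_pos.2 ⟨v, hv⟩
      omega)
  rw [KK_insert G ell r _ u hu'] at h2
  have h3 := KK_insert G ell r (B.erase v) v hv'
  rw [h1] at h3
  have h4 : ∑ b ∈ B, dd G v b = dd G v v + ∑ b ∈ B.erase v, dd G v b :=
    (add_sum_erase B (fun b => dd G v b) hv).symm
  have h5 : ∑ b ∈ B, dd G u b = dd G u v + ∑ b ∈ B.erase v, dd G u b :=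
    (add_sum_erase B (fun b => dd G u b) hv).symm
  rw [dd_self] at h4
  rw [h4, h5]
  linarith

omit [DecidableEq V] in
/-- level function after adding the distances to `B` -/
lemma lev_add (D0 K : ℕ) (hK : 1 ≤ K) (κ q : ℝ) (z : V → ℝ) (B : Finset V) (hB : B.card = K)
    (u : V) :
    lev G D0 κ z u + 2 * (q / (4 * K)) * ∑ b ∈ B, dd G u b =
      lev G D0 (κ + q / 2) (fun w => z w + q / K * ∑ b ∈ B, (1 - ind G b w)) u -
        q / (2 * K) * ∑ b ∈ B, ((D0 : ℝ) - ∑ w, ind G b w) := by
  have hK0 : (K : ℝ) ≠ 0 := by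
    have : (1 : ℝ) ≤ K := by exact_mod_cast hK
    positivity
  have h1 : ∀ b, dd G u b = 2 * ∑ w, ind G u w * (1 - ind G b w) +
      ((D0 : ℝ) - ∑ w, ind G u w) - ((D0 : ℝ) - ∑ w, ind G b w) := by
    intro b
    unfold dd
    have : ∀ w, (ind G u w - ind G b w) ^ 2 =
        2 * (ind G u w * (1 - ind G b w)) - ind G u w + ind G b w := by
      intro w
      have h2 := ind_sq G u w
      have h3 := ind_sq G b w
      nlinarith
    simp_rw [this]
    rw [sum_add_distrib, sum_sub_distrib, ← mul_sum]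
    ring
  have h2 : ∑ b ∈ B, dd G u b = 2 * ∑ w, ind G u w * ∑ b ∈ B, (1 - ind G b w) +
      K * ((D0 : ℝ) - ∑ w, ind G u w) - ∑ b ∈ B, ((D0 : ℝ) - ∑ w, ind G b w) := by
    simp_rw [h1]
    rw [sum_sub_distrib, sum_add_distrib, sum_const, hB, nsmul_eq_mul, ← mul_sum, sum_comm]
    simp_rw [mul_sum]
  rw [h2]
  unfold lev
  have h3 : ∑ w, (z w + q / K * ∑ b ∈ B, (1 - ind G b w)) * ind G u w =
      ∑ w, z w * ind G u w + q / K * ∑ w, ind G u w * ∑ b ∈ B, (1 - ind G b w) := by
    rw [mul_sum, ← sum_add_distrib]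
    refine sum_congr rfl fun w _ => ?_
    ring
  rw [h3]
  field_simp
  ring

/-- geometric classes -/
lemma geom_class (c lam : ℝ) (x : ℝ) (hx : c ≤ x) : ∀ T : ℕ, x < c * lam ^ T →
    ∃ i, i < T ∧ c * lam ^ i ≤ x ∧ x < c * lam ^ (i + 1) := by
  intro T
  induction T with
  | zero =>
    intro h
    simp at h
    linarith
  | succ T ih =>
    intro h
    by_cases h1 : x < c * lam ^ T
    · obtain ⟨i, hi, h2⟩ := ih h1
      exact ⟨i, by omega, h2⟩
    · exact ⟨T, by omega, not_lt.1 h1, h⟩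

/-- the state of the iteration -/
def St (D0 K : ℕ) (E0 E q : ℝ) (m : ℕ) (T : Finset V) : Prop :=
  ∃ (κ c : ℝ) (z : V → ℝ) (Vm : Finset V), 0 ≤ κ ∧ κ ≤ q / 2 ∧ 0 ≤ c ∧ c + 3 * E ≤ 3 * E0 ∧
    (∀ w, 0 ≤ z w) ∧ (∀ w, z w ≤ 2 * κ) ∧ (∀ v ∈ Vm, 0 ≤ lev G D0 κ z v - c) ∧
    (univ \ Vm).card ≤ K * m ∧ T ⊆ Vm ∧ T.card = K ∧
    KK G (fun v => lev G D0 κ z v - c) (q / (4 * K)) T ≤ E

theorem step (k c1 D0 K Tn : ℕ) (hk : 1 ≤ k) (hc1 : 1 ≤ c1) (hK : 1 ≤ K)
    (hdeg : ∀ v, (nb G univ v).card ≤ D0)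
    (htie : ∀ (A : Finset V), A.card = k →
      (∀ a ∈ A, ∀ b ∈ A, (nb G A a).card = (nb G A b).card) →
      ∀ (S : Finset V), A ⊆ S → ∀ s : ℕ,
      (∀ a ∈ A, ∀ b ∈ A, (nb G S a).card ≤ (nb G S b).card + s) →
      ∃ Y : Finset V, Y ⊆ S \ A ∧ Y.card ≤ c1 * s ∧
        ∀ a ∈ A, ∀ b ∈ A, (nb G (S \ Y) a).card = (nb G (S \ Y) b).card)
    (hKT : 2 ^ (2 * k) * Tn < K) (hlam : 1536 * (K : ℝ) ^ 2 < (1 + 1 / (64 * c1 : ℝ)) ^ Tn)
    (R E0 E q : ℝ) (m : ℕ) (hR : 0 < R) (hE0 : E0 = 3 * K * R) (hq : 0 < q) (hE : 0 < E)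
    (hEE : E ≤ E0)
    (hCq : c1 * 2 ^ 20 * (K : ℝ) ^ 3 * R * q ≤ E)
    (hB1 : 2 * (K * ((m : ℝ) + 2)) + k ≤ E / (512 * K ^ 2) / (256 * c1))
    (hB2 : ((k : ℝ) * Fintype.card V + 1) *
      Real.exp (-(1 / (1024 * K ^ 2) / (2 ^ 20 * K * c1 ^ 2) * (E / (512 * K ^ 2)))) < 1)
    (T : Finset V) (hSt : St G D0 K E0 E q m T) :
    (∃ S : Finset V, ((univ \ S).card : ℝ) ≤ (k + 1) * (8 * k + 13) * E0 ∧ Good G k S) ∨
    (∃ T' : Finset V, St G D0 K E0 (E / 4) (64 * q) (m + 1) T' ∧
      (∀ u ∈ T', ∀ v ∈ T', q * dd G u v ≤ E / (128 * K)) ∧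
      (∀ u ∈ T', (D0 : ℝ) - ∑ w, ind G u w ≤ 4 * E0)) := by
  classical
  obtain ⟨κ, c, z, Vm, hκ0, hκq, hc0, hcE, hz0, hz1, hlev, hVm, hTVm, hTK, hKKT⟩ := hSt
  have hK' : (1 : ℝ) ≤ K := by exact_mod_cast hK
  have hK0 : (0 : ℝ) < K := by linarith
  have hc1' : (1 : ℝ) ≤ c1 := by exact_mod_cast hc1
  have hc10 : (0 : ℝ) < c1 := by linarith
  set ell : V → ℝ := fun v => lev G D0 κ z v - c with hell
  set r : ℝ := q / (4 * K) with hr
  have hr0 : 0 < r := by positivity
  -- the minimiser
  have hTmem : T ∈ Vm.powersetCard K := by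
    rw [mem_powersetCard]
    exact ⟨hTVm, hTK⟩
  obtain ⟨B, hBmem, hBmin⟩ := exists_min_image (Vm.powersetCard K) (KK G ell r) ⟨T, hTmem⟩
  rw [mem_powersetCard] at hBmem
  obtain ⟨hBVm, hBK⟩ := hBmem
  have hKKB : KK G ell r B ≤ E := (hBmin T hTmem).trans hKKT
  have hmin : ∀ B' : Finset V, B' ⊆ Vm → B'.card = B.card → KK G ell r B ≤ KK G ell r B' := by
    intro B' h1 h2
    apply hBmin
    rw [mem_powersetCard]
    exact ⟨h1, h2.trans hBK⟩
  set g : V → ℝ := fun u => ell u + 2 * r * ∑ b ∈ B, dd G u b with hg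
  have hswap : ∀ v ∈ B, ∀ u ∈ Vm, u ∉ B → g v + 2 * r * dd G u v ≤ g u := by
    intro v hv u hu huB
    exact swap G ell r Vm B hBVm hmin v u hv hu huB
  have hdsum : ∀ u, 0 ≤ 2 * r * ∑ b ∈ B, dd G u b := by
    intro u
    have : 0 ≤ ∑ b ∈ B, dd G u b := sum_nonneg fun b _ => dd_nonneg G u b
    positivity
  have hellg : ∀ u, ell u ≤ g u := fun u => by
    have := hdsum u
    simp only [hg]
    linarith
  have hg0 : ∀ u ∈ Vm, 0 ≤ g u := fun u hu => (hlev u hu).trans (hellg u)
  have hsumg : ∑ v ∈ B, g v ≤ 2 * E := by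
    have h1 : ∑ v ∈ B, g v = ∑ v ∈ B, ell v + 2 * (r * ∑ v ∈ B, ∑ b ∈ B, dd G v b) := by
      simp only [hg]
      rw [sum_add_distrib, ← mul_sum]
      ring
    have h2 : 0 ≤ ∑ v ∈ B, ell v := sum_nonneg fun v hv => hlev v (hBVm hv)
    unfold KK at hKKB
    linarith
  have hgB : ∀ v ∈ B, g v ≤ 2 * E := by
    intro v hv
    exact (single_le_sum (f := g) (fun u hu => hg0 u (hBVm hu)) hv).trans hsumg
  have hBne : B.Nonempty := by
    rw [← card_pos, hBK]
    exact hK
  obtain ⟨v0, hv0, hv0max⟩ := exists_max_image B g hBne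
  set gm := g v0 with hgm
  have hgm2 : gm ≤ 2 * E := hgB v0 hv0
  have hgm0 : 0 ≤ gm := hg0 v0 (hBVm hv0)
  -- new parameters
  set κ' := κ + q / 2 with hκ'
  set z' : V → ℝ := fun w => z w + q / K * ∑ b ∈ B, (1 - ind G b w) with hz'
  set ce := q / (2 * K) * ∑ b ∈ B, ((D0 : ℝ) - ∑ w, ind G b w) with hce
  have hglev : ∀ u, g u = lev G D0 κ' z' u - ce - c := by
    intro u
    have := lev_add G D0 K hK κ q z B hBK u
    simp only [hg, hell]
    linarith
  have hsum1 : ∀ w, 0 ≤ ∑ b ∈ B, (1 - ind G b w) := fun w => sum_nonneg fun b _ => by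
    have := ind_le_one G b w
    linarith
  have hsum2 : ∀ w, ∑ b ∈ B, (1 - ind G b w) ≤ K := by
    intro w
    calc ∑ b ∈ B, (1 - ind G b w) ≤ ∑ b ∈ B, (1 : ℝ) := sum_le_sum fun b _ => by
          have := ind_nonneg G b w
          linarith
      _ = K := by simp [hBK]
  have hz'0 : ∀ w, 0 ≤ z' w := fun w => by
    have h1 := hz0 w
    have h2 : 0 ≤ q / K * ∑ b ∈ B, (1 - ind G b w) := mul_nonneg (by positivity) (hsum1 w)
    simp only [hz']
    linarith
  have hz'1 : ∀ w, z' w ≤ 2 * κ' := fun w => by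
    have h1 := hz1 w
    have h2 : q / K * ∑ b ∈ B, (1 - ind G b w) ≤ q / K * K :=
      mul_le_mul_of_nonneg_left (hsum2 w) (by positivity)
    have h3 : q / K * K = q := by field_simp
    simp only [hz', hκ']
    linarith
  have he0 : ∀ v, 0 ≤ (D0 : ℝ) - ∑ w, ind G v w := by
    intro v
    rw [← card_nb]
    have := hdeg v
    have : ((nb G univ v).card : ℝ) ≤ D0 := by exact_mod_cast this
    linarith
  have hzs0 : ∀ v, 0 ≤ ∑ w, z w * ind G v w := fun v =>
    sum_nonneg fun w _ => mul_nonneg (hz0 w) (ind_nonneg G v w)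
  have hzs'0 : ∀ v, 0 ≤ ∑ w, z' w * ind G v w := fun v =>
    sum_nonneg fun w _ => mul_nonneg (hz'0 w) (ind_nonneg G v w)
  have hκ'0 : 0 ≤ κ' := by simp only [hκ']; linarith
  have hκ'q : κ' ≤ q := by simp only [hκ']; linarith
  -- q is small
  have hqR : q * R * K ≤ E / (2 ^ 20 * c1 * K ^ 2) := by
    rw [le_div_iff₀ (by positivity)]
    calc q * R * K * (2 ^ 20 * c1 * K ^ 2) = c1 * 2 ^ 20 * (K : ℝ) ^ 3 * R * q := by ring
      _ ≤ E := hCq
  have hq1 : q ≤ 1 / 2 := by
    have h1 : q * R * K * (2 ^ 20 * c1 * K ^ 2) ≤ 3 * K * R := by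
      calc q * R * K * (2 ^ 20 * c1 * K ^ 2) = c1 * 2 ^ 20 * (K : ℝ) ^ 3 * R * q := by ring
        _ ≤ E := hCq
        _ ≤ 3 * K * R := by rw [← hE0]; exact hEE
    have h2 : q * (2 ^ 20 * c1 * K ^ 2) ≤ 3 := by
      have h3 : (R * K) * (q * (2 ^ 20 * c1 * K ^ 2)) ≤ (R * K) * 3 := by nlinarith
      exact le_of_mul_le_mul_left h3 (by positivity)
    have h4 : (1 : ℝ) ≤ c1 * K ^ 2 := by
      have : (1 : ℝ) ≤ (K : ℝ) ^ 2 := one_le_pow₀ hK'
      nlinarith
    nlinarith [mul_le_mul_of_nonneg_left h4 hq.le]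
  have heB : ∀ b ∈ B, (D0 : ℝ) - ∑ w, ind G b w ≤ 3 * E0 := by
    intro b hb
    have h1 := hellg b
    have h2 := hgB b hb
    have h3 := hzs0 b
    have h4 := he0 b
    have h5 : 0 ≤ κ * ((D0 : ℝ) - ∑ w, ind G b w) := mul_nonneg hκ0 h4
    simp only [hell] at h1
    unfold lev at h1
    linarith
  have hce0 : 0 ≤ ce := by
    rw [hce]
    exact mul_nonneg (by positivity) (sum_nonneg fun b _ => he0 b)
  have hce1 : ce ≤ E / 4 := by
    calc ce ≤ q / (2 * K) * ∑ b ∈ B, (3 * E0) := by
          rw [hce]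
          exact mul_le_mul_of_nonneg_left (sum_le_sum heB) (by positivity)
      _ = 9 / 2 * (q * R * K) := by
          rw [sum_const, hBK, nsmul_eq_mul, hE0]
          field_simp
          ring
      _ ≤ 9 / 2 * (E / (2 ^ 20 * c1 * K ^ 2)) := by gcongr
      _ ≤ 9 / 2 * (E / 2 ^ 20) := by
          have h1 : E / (2 ^ 20 * c1 * K ^ 2) ≤ E / 2 ^ 20 := by
            apply div_le_div_of_nonneg_left hE.le (by positivity)
            have : (1 : ℝ) ≤ c1 * K ^ 2 := by
              have : (1 : ℝ) ≤ (K : ℝ) ^ 2 := one_le_pow₀ hK'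
              nlinarith
            nlinarith
          linarith
      _ ≤ E / 4 := by linarith
  set Nr := (Vm \ B).filter (fun u => g u ≤ gm + E / (512 * K ^ 2)) with hNr
  by_cases hcase : K ≤ Nr.card
  · -- exchange
    right
    obtain ⟨T', hT'Nr, hT'K⟩ := exists_subset_card_eq hcase
    have hT'mem : ∀ u ∈ T', u ∈ Vm ∧ u ∉ B ∧ g u ≤ gm + E / (512 * K ^ 2) := by
      intro u hu
      have := hT'Nr hu
      rw [hNr, mem_filter, mem_sdiff] at this
      exact ⟨this.1.1, this.1.2, this.2⟩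
    have hd0 : ∀ u ∈ T', 2 * r * dd G u v0 ≤ E / (512 * K ^ 2) := by
      intro u hu
      obtain ⟨h1, h2, h3⟩ := hT'mem u hu
      have := hswap v0 hv0 u h1 h2
      linarith
    have hd1 : ∀ u ∈ T', ∀ v ∈ T', q * dd G u v ≤ E / (128 * K) := by
      intro u hu v hv
      have h1 := hd0 u hu
      have h2 := hd0 v hv
      have h3 := dd_triangle G u v0 v
      rw [dd_comm G v0 v] at h3
      have h4 : q = 2 * K * (2 * r) := by
        rw [hr]; field_simp; ring
      calc q * dd G u v ≤ q * (dd G u v0 + dd G v v0) := by gcongr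
        _ = 2 * K * (2 * r * dd G u v0 + 2 * r * dd G v v0) := by
            rw [h4]; ring
        _ ≤ 2 * K * (E / (512 * K ^ 2) + E / (512 * K ^ 2)) := by gcongr
        _ = E / (128 * K) := by field_simp; norm_num
    refine ⟨T', ⟨κ', c + gm + ce, z', Vm \ B, hκ'0, by linarith, by linarith, by linarith, hz'0,
      hz'1, ?_, ?_, ?_, hT'K, ?_⟩, hd1, ?_⟩
    · intro v hv
      rw [mem_sdiff] at hv
      have h1 := hswap v0 hv0 v hv.1 hv.2
      have h2 := hglev v
      have h3 : 0 ≤ 2 * r * dd G v v0 := by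
        have := dd_nonneg G v v0
        positivity
      linarith
    · have h1 : univ \ (Vm \ B) ⊆ (univ \ Vm) ∪ B := by
        intro w hw
        rw [mem_union, mem_sdiff]
        rw [mem_sdiff, mem_sdiff] at hw
        tauto
      calc (univ \ (Vm \ B)).card ≤ _ := card_le_card h1
        _ ≤ (univ \ Vm).card + B.card := card_union_le _ _
        _ ≤ K * m + K := by omega
        _ = K * (m + 1) := by ring
    · exact hT'Nr.trans (filter_subset _ _)
    · unfold KK
      have h1 : ∑ v ∈ T', (lev G D0 κ' z' v - (c + gm + ce)) ≤ K * (E / (512 * K ^ 2)) := by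
        calc ∑ v ∈ T', (lev G D0 κ' z' v - (c + gm + ce))
            ≤ ∑ v ∈ T', (E / (512 * K ^ 2)) := by
              refine sum_le_sum fun v hv => ?_
              have h2 := (hT'mem v hv).2.2
              rw [hglev v] at h2
              linarith
          _ = K * (E / (512 * K ^ 2)) := by rw [sum_const, hT'K, nsmul_eq_mul]
      have h2 : 64 * q / (4 * K) * ∑ v ∈ T', ∑ v' ∈ T', dd G v v' ≤
          64 / (4 * K) * (K * (K * (E / (128 * K)))) := by
        have h3 : 64 * q / (4 * K) * ∑ v ∈ T', ∑ v' ∈ T', dd G v v' =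
            64 / (4 * K) * ∑ v ∈ T', ∑ v' ∈ T', q * dd G v v' := by
          have : ∑ v ∈ T', ∑ v' ∈ T', q * dd G v v' = q * ∑ v ∈ T', ∑ v' ∈ T', dd G v v' := by
            simp_rw [mul_sum]
          rw [this]
          ring
        rw [h3]
        refine mul_le_mul_of_nonneg_left ?_ (by positivity)
        calc ∑ v ∈ T', ∑ v' ∈ T', q * dd G v v' ≤ ∑ v ∈ T', ∑ v' ∈ T', E / (128 * K) :=
              sum_le_sum fun v hv => sum_le_sum fun v' hv' => hd1 v hv v' hv'
          _ = K * (K * (E / (128 * K))) := by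
              rw [sum_const, sum_const, hT'K, nsmul_eq_mul, nsmul_eq_mul]
      have h4 : 64 / (4 * (K : ℝ)) * (K * (K * (E / (128 * K)))) = E / 8 := by
        field_simp
        norm_num
      have h5 : (K : ℝ) * (E / (512 * K ^ 2)) ≤ E / 512 := by
        have : (K : ℝ) * (E / (512 * K ^ 2)) = E / 512 / K := by field_simp
        rw [this]
        exact div_le_self (by positivity) hK'
      linarith
    · intro u hu
      obtain ⟨h1, h2, h3⟩ := hT'mem u hu
      rw [hglev u] at h3
      have h4 := hzs'0 u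
      have h5 := he0 u
      have h6 : 0 ≤ κ' * ((D0 : ℝ) - ∑ w, ind G u w) := mul_nonneg hκ'0 h5
      unfold lev at h3
      have h7 : E / (512 * (K : ℝ) ^ 2) ≤ E / 4 := by
        apply div_le_div_of_nonneg_left hE.le (by norm_num)
        have : (1 : ℝ) ≤ (K : ℝ) ^ 2 := one_le_pow₀ hK'
        linarith
      linarith
  · -- win
    left
    push Not at hcase
    set η : ℝ := 1 / (512 * K ^ 2) with hη
    have hη0 : 0 < η := by positivity
    have hηE : E / (512 * K ^ 2) = η * E := by rw [hη]; ring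
    rw [hηE] at hNr hB1 hB2
    have hη1 : η ≤ 1 := by
      rw [hη, div_le_one (by positivity)]
      have : (1 : ℝ) ≤ (K : ℝ) ^ 2 := one_le_pow₀ hK'
      linarith
    set lam : ℝ := 1 + 1 / (64 * c1) with hlamdef
    set yy : V → ℝ := fun v => gm + η * E - g v with hyy
    have hy1 : ∀ v ∈ B, η * E ≤ yy v := by
      intro v hv
      have := hv0max v hv
      simp only [hyy]
      linarith
    have hy2 : ∀ v ∈ B, yy v ≤ 3 * E := by
      intro v hv
      have h1 := hg0 v (hBVm hv)
      simp only [hyy]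
      nlinarith
    have hy3 : ∀ v ∈ B, yy v < η * E * lam ^ Tn := by
      intro v hv
      have h1 := hy2 v hv
      have h2 : 3 * E = η * E * (1536 * K ^ 2) := by
        rw [hη]
        field_simp
        norm_num
      have h3 : η * E * (1536 * K ^ 2) < η * E * lam ^ Tn :=
        mul_lt_mul_of_pos_left hlam (by positivity)
      linarith
    have hcl : ∀ v ∈ B, ∃ i, i < Tn ∧ η * E * lam ^ i ≤ yy v ∧ yy v < η * E * lam ^ (i + 1) :=
      fun v hv => geom_class (η * E) lam (yy v) (hy1 v hv) Tn (hy3 v hv)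
    choose! f hf using hcl
    obtain ⟨i, hi, hcard⟩ := exists_lt_card_fiber_of_mul_lt_card_of_maps_to
      (s := B) (t := range Tn) (f := f) (n := 2 ^ (2 * k))
      (fun v hv => mem_range.2 (hf v hv).1) (by
        rw [card_range, hBK, mul_comm]
        exact hKT)
    obtain ⟨A, hAsub, hAk, hAcl⟩ := ramsey G k _ hcard.le
    have hAB : A ⊆ B := fun a ha => (mem_filter.1 (hAsub ha)).1
    set ρ := η * E * lam ^ i with hρ
    have hlam1 : 1 ≤ lam := by
      rw [hlamdef]
      have : 0 < 1 / (64 * (c1 : ℝ)) := by positivity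
      linarith
    have hAy : ∀ a ∈ A, ρ ≤ yy a ∧ yy a < ρ * lam := by
      intro a ha
      have h1 := mem_filter.1 (hAsub ha)
      have h2 := hf a h1.1
      rw [h1.2] at h2
      refine ⟨h2.2.1, ?_⟩
      have h3 := h2.2.2
      rw [pow_succ, ← mul_assoc] at h3
      exact h3
    have hρ0 : 0 < ρ := by
      rw [hρ]
      positivity
    have hρE : η * E ≤ ρ := by
      rw [hρ]
      exact le_mul_of_one_le_right (by positivity) (one_le_pow₀ hlam1)
    have hint : ∀ a ∈ A, ∀ b ∈ A, (nb G A a).card = (nb G A b).card := by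
      have key : ∃ r : ℕ, ∀ a ∈ A, (nb G A a).card = r := by
        rcases hAcl with h | h
        · refine ⟨k - 1, fun a ha => ?_⟩
          have h1 : nb G A a = A.erase a := by
            ext u
            rw [mem_nb, mem_erase]
            constructor
            · rintro ⟨h2, h3⟩
              exact ⟨h3.ne', h2⟩
            · rintro ⟨h2, h3⟩
              exact ⟨h3, h a ha u h3 (Ne.symm h2)⟩
          rw [h1, card_erase_of_mem ha, hAk]
        · refine ⟨0, fun a ha => ?_⟩
          rw [card_eq_zero, nb, filter_eq_empty_iff]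
          intro u hu
          exact h a ha u hu
      obtain ⟨r, hr⟩ := key
      intro a ha b hb
      rw [hr a ha, hr b hb]
    have hAne : A.Nonempty := by
      rw [← card_pos, hAk]
      exact hk
    obtain ⟨a0, ha0⟩ := hAne
    have hρ3 : ρ ≤ 3 * E := (hAy a0 ha0).1.trans (hy2 a0 (hAB ha0))
    set D := (univ \ Vm) ∪ (B \ A) ∪ Nr with hD
    have hAD : Disjoint A D := by
      rw [disjoint_left]
      intro a ha h
      have haB := hAB ha
      have haV := hBVm haB
      rw [hD, mem_union, mem_union, mem_sdiff, mem_sdiff, hNr, mem_filter, mem_sdiff] at h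
      tauto
    have hDmem : ∀ u, u ∉ A → u ∉ D → u ∈ Vm ∧ u ∉ B ∧ gm + η * E < g u := by
      intro u huA huD
      rw [hD, mem_union, mem_union, mem_sdiff, mem_sdiff, hNr, mem_filter, mem_sdiff] at huD
      push Not at huD
      have h1 : u ∈ Vm := by
        by_contra h
        exact h (by_contra fun _ => h (huD.1.1 (mem_univ u)))
      have h2 : u ∉ B := fun h => huA (huD.1.2 h)
      exact ⟨h1, h2, huD.2 ⟨h1, h2⟩⟩
    have hDcard : (D.card : ℝ) ≤ K * (m + 2) := by
      have h1 := card_union_le ((univ \ Vm) ∪ (B \ A)) Nr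
      have h2 := card_union_le (univ \ Vm) (B \ A)
      have h3 : (B \ A).card ≤ K := (card_le_card sdiff_subset).trans hBK.le
      have h4 : D.card ≤ K * m + K + K := by
        rw [hD]
        omega
      have h5 : (D.card : ℝ) ≤ K * m + K + K := by exact_mod_cast h4
      linarith
    have hglevd : ∀ u v, lev G D0 κ' z' u - lev G D0 κ' z' v = g u - g v := by
      intro u v
      rw [hglev u, hglev v]
      ring
    have hlevB : ∀ a ∈ B, lev G D0 κ' z' a ≤ 4 * E0 := by
      intro a ha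
      have h1 := hgB a ha
      rw [hglev a] at h1
      linarith
    have hwin := win G k c1 D0 hk hc1 hdeg A D hAD hAk
      (htie A hAk hint) K (1 / (1024 * K ^ 2)) q κ' (4 * E0) ρ hK' (by positivity)
      (by
        rw [div_le_one (by positivity)]
        have : (1 : ℝ) ≤ (K : ℝ) ^ 2 := one_le_pow₀ hK'
        linarith) hq hκ'0 hκ'q hq1 z' hz'0 hz'1 hρ0
      (by
        intro u huA huD a ha
        obtain ⟨h1, h2, h3⟩ := hDmem u huA huD
        rw [hglevd]
        have := (hAy a ha).1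
        simp only [hyy] at this
        linarith)
      (by
        intro u huA huD a ha
        obtain ⟨h1, h2, h3⟩ := hDmem u huA huD
        rw [hglevd]
        have h4 := hswap a (hAB ha) u h1 h2
        have h5 : q = 2 * K * (2 * r) := by
          rw [hr]; field_simp; ring
        rw [dd_comm G a u]
        calc q * dd G u a = 2 * K * (2 * r * dd G u a) := by
              conv_lhs => rw [h5]
              ring
          _ ≤ 2 * K * (g u - g a) := by
              apply mul_le_mul_of_nonneg_left _ (by positivity)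
              linarith)
      (by
        intro a ha b hb
        rw [hglevd]
        have h1 := (hAy a ha).1
        have h2 := (hAy b hb).2
        simp only [hyy] at h1 h2
        have h3 : ρ * lam = ρ + ρ / (64 * c1) := by
          rw [hlamdef]
          ring
        linarith)
      (by
        intro a ha b hb
        have h1 := hgB a (hAB ha)
        have h2 := hlev a (hBVm (hAB ha))
        have h3 : 2 * r * dd G a b ≤ 2 * E := by
          have h4 : dd G a b ≤ ∑ b ∈ B, dd G a b :=
            single_le_sum (f := fun b => dd G a b) (fun b _ => dd_nonneg G a b) (hAB hb)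
          have h5 : 2 * r * dd G a b ≤ 2 * r * ∑ b ∈ B, dd G a b :=
            mul_le_mul_of_nonneg_left h4 (by positivity)
          simp only [hg, hell] at h1
          linarith
        have h5 : q = 2 * K * (2 * r) := by
          rw [hr]; field_simp; ring
        have h6 : q * dd G a b ≤ 4 * K * E := by
          calc q * dd G a b = 2 * K * (2 * r * dd G a b) := by
                conv_lhs => rw [h5]
                ring
            _ ≤ 2 * K * (2 * E) := by
                apply mul_le_mul_of_nonneg_left h3 (by positivity)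
            _ = 4 * K * E := by ring
        have h7 : (1 : ℝ) / (1024 * K ^ 2) = η / 2 := by
          rw [hη]; field_simp; norm_num
        rw [h7]
        calc η / 2 * (q * dd G a b) ≤ η / 2 * (4 * K * E) := by
              apply mul_le_mul_of_nonneg_left h6 (by positivity)
          _ = 2 * K * (η * E) := by ring
          _ ≤ 2 * K * ρ := by gcongr)
      (by
        intro a ha
        have h1 := hlevB a (hAB ha)
        unfold lev at h1
        have h4 := hzs'0 a
        have h5 := he0 a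
        have h6 : 0 ≤ κ' * ((D0 : ℝ) - ∑ w, ind G a w) := mul_nonneg hκ'0 h5
        linarith)
      (by
        intro a ha
        have h1 := hlevB a (hAB ha)
        unfold lev at h1
        have h4 := hzs'0 a
        have h5 := he0 a
        have h6 : 0 ≤ κ' * ((D0 : ℝ) - ∑ w, ind G a w) := mul_nonneg hκ'0 h5
        linarith)
      (by
        calc q * (4 * E0) = 12 * (q * R * K) := by rw [hE0]; ring
          _ ≤ 12 * (E / (2 ^ 20 * c1 * K ^ 2)) := by gcongr
          _ ≤ (η * E) / (128 * c1) := by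
              rw [hη]
              rw [← sub_nonneg]
              have : 1 / (512 * (K : ℝ) ^ 2) * E / (128 * c1) - 12 * (E / (2 ^ 20 * c1 * K ^ 2)) =
                (E / (c1 * K ^ 2)) * (1 / 65536 - 12 / 2 ^ 20) := by
                field_simp
                norm_num
              rw [this]
              apply mul_nonneg (by positivity)
              norm_num
          _ ≤ ρ / (128 * c1) := by gcongr)
      (by
        calc 2 * (D.card : ℝ) + k ≤ 2 * (K * (m + 2)) + k := by linarith
          _ ≤ η * E / (256 * c1) := hB1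
          _ ≤ ρ / (256 * c1) := by gcongr)
      (by
        refine lt_of_le_of_lt ?_ hB2
        gcongr)
    obtain ⟨S, hS1, hS2⟩ := hwin
    refine ⟨S, hS1.trans ?_, hS2⟩
    have hk0 : (0 : ℝ) ≤ k := Nat.cast_nonneg k
    have hDρ : (D.card : ℝ) ≤ 3 * E0 := by
      have h1 : (D.card : ℝ) ≤ η * E / (256 * c1) := by
        have : (0 : ℝ) ≤ D.card := Nat.cast_nonneg _
        have : 0 ≤ (K : ℝ) * (m + 2) := by positivity
        linarith
      have h2 : η * E / (256 * c1) ≤ η * E := div_le_self (by positivity) (by linarith)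
      have h3 : η * E ≤ 3 * E0 := by nlinarith
      linarith
    have h1 : (D.card : ℝ) + 2 * k * (4 * E0) + 2 * ρ ≤ (9 + 8 * k) * E0 := by
      have : ρ ≤ 3 * E0 := by linarith
      linarith
    have hE00 : 0 < E0 := by linarith
    calc ((k : ℝ) + 1) * (D.card + 2 * k * (4 * E0) + 2 * ρ) + k * (4 * E0)
        ≤ (k + 1) * ((9 + 8 * k) * E0) + (k + 1) * (4 * E0) := by
          gcongr
          linarith
      _ = (k + 1) * (8 * k + 13) * E0 := by ring

end Pool.Agent.MaxDeg
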