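import Pool.Agent.MaxDeg.Basic

set_option autoImplicit false

/-!
The tie lemma: if `k` vertices with equal internal degrees have degrees within `s` of each
other, one can delete at most `c * s` other vertices and make all the degrees equal.
The proof is by Dickson's lemma.
-/

namespace Pool.Agent.MaxDeg

open Finset

section Dickson

variable (k : ℕ)

/-- index set of the counting vectors: patterns, then excesses, then a common value -/
abbrev Idx := Finset (Fin k) ⊕ (Fin k ⊕ Unit)

/-- the number of elements counted at `i` -/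
def cnt (x : Idx k → ℕ) (i : Fin k) : ℕ :=
  ∑ R : Finset (Fin k), if i ∈ R then x (Sum.inl R) else 0

/-- the balance equations -/
def Mon : Set (Idx k → ℕ) :=
  {x | ∀ i, cnt k x i = x (Sum.inr (Sum.inl i)) + x (Sum.inr (Sum.inr ()))}

/-- total number of elements -/
def tot (x : Idx k → ℕ) : ℕ := ∑ R : Finset (Fin k), x (Sum.inl R)

/-- total excess -/
def exc (x : Idx k → ℕ) : ℕ := ∑ i : Fin k, x (Sum.inr (Sum.inl i))

lemma cnt_add (x y : Idx k → ℕ) (i : Fin k) : cnt k (x + y) i = cnt k x i + cnt k y i := by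
  unfold cnt
  rw [← sum_add_distrib]
  refine sum_congr rfl fun R _ => ?_
  split_ifs <;> simp

lemma tot_add (x y : Idx k → ℕ) : tot k (x + y) = tot k x + tot k y := by
  unfold tot
  rw [← sum_add_distrib]
  rfl

lemma exc_add (x y : Idx k → ℕ) : exc k (x + y) = exc k x + exc k y := by
  unfold exc
  rw [← sum_add_distrib]
  rfl

lemma mon_add {x y : Idx k → ℕ} (hx : x ∈ Mon k) (hy : y ∈ Mon k) : x + y ∈ Mon k := by
  intro i
  rw [cnt_add, hx i, hy i]
  simp only [Pi.add_apply]
  ring

lemma mon_sub {x y : Idx k → ℕ} (hx : x ∈ Mon k) (hy : y ∈ Mon k) (hyx : y ≤ x) :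
    x - y ∈ Mon k := by
  intro i
  have h1 : (x - y) + y = x := by
    funext j
    simp only [Pi.add_apply, Pi.sub_apply]
    exact Nat.sub_add_cancel (hyx j)
  have h2 := cnt_add k (x - y) y i
  rw [h1, hx i, hy i] at h2
  have h3 : y (Sum.inr (Sum.inl i)) ≤ x (Sum.inr (Sum.inl i)) := hyx _
  have h4 : y (Sum.inr (Sum.inr ())) ≤ x (Sum.inr (Sum.inr ())) := hyx _
  simp only [Pi.sub_apply]
  omega

/-- the minimal nonzero elements are finitely many -/
lemma minimal_finite :
    {x : Idx k → ℕ | Minimal (fun y => y ∈ Mon k ∧ y ≠ 0) x}.Finite := by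
  apply WellQuasiOrderedLE.finite_of_isAntichain
  exact setOfPred_minimal_antichain _

theorem dickson : ∃ c : ℕ, ∀ x ∈ Mon k, ∃ x' ∈ Mon k, x' ≤ x ∧
    (∀ i, x' (Sum.inr (Sum.inl i)) = x (Sum.inr (Sum.inl i))) ∧ tot k x' ≤ c * exc k x := by
  classical
  set F := (minimal_finite k).toFinset with hF
  refine ⟨∑ y ∈ F, tot k y, ?_⟩
  set c := ∑ y ∈ F, tot k y with hc
  have main : ∀ n : ℕ, ∀ x ∈ Mon k, ∑ j, x j = n → ∃ x' ∈ Mon k, x' ≤ x ∧
    (∀ i, x' (Sum.inr (Sum.inl i)) = x (Sum.inr (Sum.inl i))) ∧ tot k x' ≤ c * exc k x := by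
    intro n
    induction n using Nat.strong_induction_on with
    | _ n ih =>
      intro x hx hn
      by_cases h0 : exc k x = 0
      · refine ⟨0, ?_, ?_, ?_, ?_⟩
        · intro i
          simp [cnt]
        · intro j
          simp
        · intro i
          unfold exc at h0
          rw [sum_eq_zero_iff] at h0
          simp [h0 i (mem_univ i)]
        · simp [tot]
      · have hx0 : x ≠ 0 := by
          rintro rfl
          apply h0
          simp [exc]
        obtain ⟨y, hyx, hy⟩ := (Set.isPWO_of_wellQuasiOrderedLE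
          {y : Idx k → ℕ | y ∈ Mon k ∧ y ≠ 0}).exists_le_minimal (a := x) ⟨hx, hx0⟩
        have hyF : y ∈ F := by
          rw [hF, Set.Finite.mem_toFinset]
          exact hy
        have hyM : y ∈ Mon k := hy.prop.1
        have hy0 : y ≠ 0 := hy.prop.2
        have hsub := mon_sub k hx hyM hyx
        have h1 : (x - y) + y = x := by
          funext j
          simp only [Pi.add_apply, Pi.sub_apply]
          exact Nat.sub_add_cancel (hyx j)
        have hlt : ∑ j, (x - y) j < n := by
          have h2 : ∑ j, (x - y) j + ∑ j, y j = n := by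
            rw [← sum_add_distrib, ← hn]
            exact sum_congr rfl fun j _ => Nat.sub_add_cancel (hyx j)
          have h3 : 0 < ∑ j, y j := by
            rw [Nat.pos_iff_ne_zero]
            intro h
            rw [sum_eq_zero_iff] at h
            exact hy0 (funext fun j => h j (mem_univ j))
          omega
        obtain ⟨x', hx'1, hx'2, hx'3, hx'4⟩ := ih _ hlt (x - y) hsub rfl
        have hexc : exc k x = exc k (x - y) + exc k y := by
          rw [← exc_add, h1]
        by_cases hey : exc k y = 0
        · refine ⟨x', hx'1, ?_, ?_, ?_⟩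
          · intro j
            exact (hx'2 j).trans (by simp)
          · intro i
            rw [hx'3 i]
            unfold exc at hey
            rw [sum_eq_zero_iff] at hey
            simp [hey i (mem_univ i)]
          · rw [hexc, hey]
            exact hx'4
        · refine ⟨x' + y, mon_add k hx'1 hyM, ?_, ?_, ?_⟩
          · intro j
            have h4 : x' j ≤ (x - y) j := hx'2 j
            have h5 : y j ≤ x j := hyx j
            simp only [Pi.add_apply, Pi.sub_apply] at h4 ⊢
            omega
          · intro i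
            have h5 : y (Sum.inr (Sum.inl i)) ≤ x (Sum.inr (Sum.inl i)) := hyx _
            simp only [Pi.add_apply, hx'3 i, Pi.sub_apply]
            omega
          · rw [tot_add, hexc, mul_add]
            have h6 : tot k y ≤ c := by
              rw [hc]
              exact single_le_sum (f := fun y => tot k y) (fun _ _ => Nat.zero_le _) hyF
            have h7 : c ≤ c * exc k y := Nat.le_mul_of_pos_right c (Nat.pos_of_ne_zero hey)
            omega
  intro x hx
  exact main _ x hx rfl

end Dickson

section Graph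

variable {V : Type} [DecidableEq V] (G : SimpleGraph V) [DecidableRel G.Adj]

/-- choosing a subset with prescribed numbers of elements of each pattern -/
lemma choose_pattern {α : Type} [Fintype α] [DecidableEq α] (W : Finset V) (pat : V → α)
    (m : α → ℕ) (hm : ∀ R, m R ≤ (W.filter (fun w => pat w = R)).card) :
    ∃ Y ⊆ W, ∀ R, (Y.filter (fun w => pat w = R)).card = m R := by
  have h1 : ∀ R, ∃ Y ⊆ W.filter (fun w => pat w = R), Y.card = m R := fun R =>
    exists_subset_card_eq (hm R)
  choose Y hY1 hY2 using h1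
  refine ⟨univ.biUnion Y, ?_, ?_⟩
  · intro w hw
    rw [mem_biUnion] at hw
    obtain ⟨R, _, hR⟩ := hw
    exact (mem_filter.1 (hY1 R hR)).1
  · intro R
    rw [← hY2 R]
    congr 1
    ext w
    rw [mem_filter, mem_biUnion]
    constructor
    · rintro ⟨⟨R', _, hR'⟩, hw⟩
      have := (mem_filter.1 (hY1 R' hR')).2
      rw [this] at hw
      rw [← hw]
      exact hR'
    · intro hw
      exact ⟨⟨R, mem_univ _, hw⟩, (mem_filter.1 (hY1 R hw)).2⟩

omit [DecidableEq V] in
/-- counting by patterns -/
lemma count_pattern {k : ℕ} (a : Fin k → V) (Y : Finset V) (i : Fin k) :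
    (nb G Y (a i)).card = ∑ R : Finset (Fin k),
      if i ∈ R then (Y.filter (fun w => univ.filter (fun j => G.Adj (a j) w) = R)).card else 0 := by
  have h1 : (nb G Y (a i)).card = ∑ R : Finset (Fin k),
      ((nb G Y (a i)).filter (fun w => univ.filter (fun j => G.Adj (a j) w) = R)).card :=
    card_eq_sum_card_fiberwise (fun _ _ => mem_univ _)
  rw [h1]
  refine sum_congr rfl fun R _ => ?_
  split_ifs with h
  · congr 1
    ext w
    rw [mem_filter, mem_filter, mem_nb]
    constructor
    · rintro ⟨⟨h2, _⟩, h3⟩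
      exact ⟨h2, h3⟩
    · rintro ⟨h2, h3⟩
      refine ⟨⟨h2, ?_⟩, h3⟩
      rw [← h3, mem_filter] at h
      exact h.2
  · rw [card_eq_zero, filter_eq_empty_iff]
    intro w hw h3
    apply h
    rw [← h3, mem_filter]
    exact ⟨mem_univ _, ((mem_nb G).1 hw).2⟩

/-- the tie lemma -/
theorem tie (k : ℕ) : ∃ c : ℕ, ∀ {V : Type} [DecidableEq V] (G : SimpleGraph V)
    [DecidableRel G.Adj] (S A : Finset V), A ⊆ S → A.card = k →
    (∀ a ∈ A, ∀ b ∈ A, (nb G A a).card = (nb G A b).card) → ∀ s : ℕ,
    (∀ a ∈ A, ∀ b ∈ A, (nb G S a).card ≤ (nb G S b).card + s) →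
    ∃ Y : Finset V, Y ⊆ S \ A ∧ Y.card ≤ c * s ∧
      ∀ a ∈ A, ∀ b ∈ A, (nb G (S \ Y) a).card = (nb G (S \ Y) b).card := by
  obtain ⟨c, hc⟩ := dickson k
  refine ⟨c * k, ?_⟩
  intro V _ G _ S A hAS hA hint s hs
  by_cases hk : k = 0
  · subst hk
    rw [card_eq_zero] at hA
    subst hA
    exact ⟨∅, by simp, by simp, by simp⟩
  set W := S \ A with hW
  -- enumeration of A
  obtain ⟨a, ha, harange⟩ : ∃ a : Fin k → V, Function.Injective a ∧ ∀ v, v ∈ A ↔ ∃ i, a i = v := by
    refine ⟨fun i => ((A.equivFinOfCardEq hA).symm i : V), ?_, ?_⟩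
    · intro i j hij
      have := Subtype.ext hij
      exact (A.equivFinOfCardEq hA).symm.injective this
    · intro v
      constructor
      · intro hv
        exact ⟨A.equivFinOfCardEq hA ⟨v, hv⟩, by simp⟩
      · rintro ⟨i, rfl⟩
        exact ((A.equivFinOfCardEq hA).symm i).2
  have haA : ∀ i, a i ∈ A := fun i => (harange (a i)).2 ⟨i, rfl⟩
  -- split degrees
  have hsplit : ∀ (T : Finset V), A ⊆ T → ∀ v, (nb G T v).card = (nb G A v).card +
      (nb G (T \ A) v).card := by
    intro T hT v
    have h1 : nb G T v = nb G A v ∪ nb G (T \ A) v := by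
      rw [nb, nb, nb, ← filter_union, union_sdiff_of_subset hT]
    rw [h1]
    apply card_union_of_disjoint
    rw [disjoint_left]
    intro u hu hu'
    rw [mem_nb] at hu hu'
    exact (mem_sdiff.1 hu'.1).2 hu.1
  set D : Fin k → ℕ := fun i => (nb G W (a i)).card with hD
  have hDs : ∀ i j, D i ≤ D j + s := by
    intro i j
    have h1 := hs (a i) (haA i) (a j) (haA j)
    rw [hsplit S hAS, hsplit S hAS, hint (a i) (haA i) (a j) (haA j)] at h1
    simp only [hD, hW]
    omega
  have : Nonempty (Fin k) := ⟨⟨0, Nat.pos_of_ne_zero hk⟩⟩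
  obtain ⟨i0, _, hi0⟩ := exists_min_image (univ : Finset (Fin k)) D univ_nonempty
  set pat : V → Finset (Fin k) := fun w => univ.filter (fun j => G.Adj (a j) w) with hpat
  set x : Idx k → ℕ := Sum.elim (fun R => (W.filter (fun w => pat w = R)).card)
    (Sum.elim (fun i => D i - D i0) (fun _ => D i0)) with hx
  have hxM : x ∈ Mon k := by
    intro i
    have h1 := count_pattern G a W i
    have h2 : D i0 ≤ D i := hi0 i (mem_univ i)
    simp only [hx, cnt, Sum.elim_inl, Sum.elim_inr]
    rw [← h1]
    simp only [hD] at h2 ⊢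
    omega
  obtain ⟨x', hx'M, hx'le, hx'e, hx't⟩ := hc x hxM
  obtain ⟨Y, hYW, hY⟩ := choose_pattern W pat (fun R => x' (Sum.inl R))
    (fun R => hx'le (Sum.inl R))
  have hYdeg : ∀ i, (nb G Y (a i)).card = (D i - D i0) + x' (Sum.inr (Sum.inr ())) := by
    intro i
    rw [count_pattern G a Y i]
    have h1 := hx'M i
    rw [hx'e i] at h1
    have h2 : cnt k x' i = ∑ R : Finset (Fin k),
      if i ∈ R then (Y.filter (fun w => univ.filter (fun j => G.Adj (a j) w) = R)).card else 0 := by
      unfold cnt
      refine sum_congr rfl fun R _ => ?_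
      split_ifs with h
      · exact (hY R).symm
      · rfl
    rw [← h2, h1]
    simp [hx]
  refine ⟨Y, hYW, ?_, ?_⟩
  · have h1 : Y.card = tot k x' := by
      have h2 : Y.card = ∑ R : Finset (Fin k), (Y.filter (fun w => pat w = R)).card :=
        card_eq_sum_card_fiberwise (fun _ _ => mem_univ _)
      rw [h2]
      exact sum_congr rfl fun R _ => hY R
    have h2 : exc k x ≤ k * s := by
      calc exc k x = ∑ i : Fin k, (D i - D i0) := by simp [exc, hx]
        _ ≤ ∑ i : Fin k, s := by
            refine sum_le_sum fun i _ => ?_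
            have := hDs i i0
            omega
        _ = k * s := by simp
    calc Y.card = tot k x' := h1
      _ ≤ c * exc k x := hx't
      _ ≤ c * (k * s) := Nat.mul_le_mul_left _ h2
      _ = c * k * s := by ring
  · have hkey : ∀ i, (nb G (S \ Y) (a i)).card + (D i0 - D i0) =
        (nb G A (a i)).card + (D i0 - x' (Sum.inr (Sum.inr ()))) := by
      intro i
      have hAY : A ⊆ S \ Y := by
        intro v hv
        rw [mem_sdiff]
        refine ⟨hAS hv, fun h => ?_⟩
        have := hYW h
        rw [hW, mem_sdiff] at this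
        exact this.2 hv
      have h1 := hsplit (S \ Y) hAY (a i)
      have h2 : nb G ((S \ Y) \ A) (a i) = nb G W (a i) \ nb G Y (a i) := by
        ext u
        rw [mem_nb, mem_sdiff, mem_sdiff, mem_sdiff, mem_nb, mem_nb, hW, mem_sdiff]
        tauto
      have h3 : nb G Y (a i) ⊆ nb G W (a i) := nb_mono G hYW _
      have h4 := card_sdiff_of_subset h3
      have h5 := card_le_card h3
      rw [← h2] at h4
      rw [hYdeg i] at h4 h5
      have h6 : D i0 ≤ D i := hi0 i (mem_univ i)
      have h7 : (nb G W (a i)).card = D i := rfl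
      rw [h7] at h4 h5
      omega
    have hall : ∀ v ∈ A, ∀ w ∈ A, (nb G (S \ Y) v).card = (nb G (S \ Y) w).card := by
      intro v hv w hw
      obtain ⟨i, rfl⟩ := (harange v).1 hv
      obtain ⟨j, rfl⟩ := (harange w).1 hw
      have h1 := hkey i
      have h2 := hkey j
      have h3 := hint (a i) hv (a j) hw
      omega
    exact hall

end Graph

end Pool.Agent.MaxDeg
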