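import Pool.Agent.MaxDeg.Tie
import Pool.Agent.MaxDeg.Chernoff

set_option autoImplicit false

/-!
The winning step: a regular set `A` of `k` vertices which is separated from all other vertices.
-/

namespace Pool.Agent.MaxDeg

open Finset

variable {V : Type} [DecidableEq V] (G : SimpleGraph V) [DecidableRel G.Adj]

/-- the 0/1 adjacency indicator -/
noncomputable def ind (v w : V) : ℝ := if G.Adj v w then 1 else 0

omit [DecidableEq V] in
lemma ind_nonneg (v w : V) : 0 ≤ ind G v w := by
  unfold ind; split_ifs <;> norm_num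

omit [DecidableEq V] in
lemma ind_le_one (v w : V) : ind G v w ≤ 1 := by
  unfold ind; split_ifs <;> norm_num

omit [DecidableEq V] in
lemma ind_sq (v w : V) : ind G v w * ind G v w = ind G v w := by
  unfold ind; split_ifs <;> norm_num

omit [DecidableEq V] in
lemma ind_abs (u v w : V) : |ind G u w - ind G v w| ≤ 1 := by
  have h1 := ind_nonneg G u w
  have h2 := ind_le_one G u w
  have h3 := ind_nonneg G v w
  have h4 := ind_le_one G v w
  rw [abs_le]
  constructor <;> linarith

omit [DecidableEq V] in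
lemma card_nb (S : Finset V) (v : V) : ((nb G S v).card : ℝ) = ∑ w ∈ S, ind G v w := by
  unfold nb ind
  rw [card_filter]
  push_cast
  rfl

/-- random subset with all the pair constraints -/
theorem randset (W : Finset V) (z : V → ℝ) (hz0 : ∀ w, 0 ≤ z w) (hz1 : ∀ w, z w ≤ 1)
    (I : Finset (V × V)) (s τ : V × V → ℝ) (hs0 : ∀ p ∈ I, 0 ≤ s p) (hs1 : ∀ p ∈ I, s p ≤ 1)
    (B ρ : ℝ) (hρ : B ≤ ρ) (hB : ((I.card : ℝ) + 1) * Real.exp (-B) < 1)
    (hvar : ∀ p ∈ I, s p * ∑ w ∈ W, z w * (ind G p.1 w - ind G p.2 w) ^ 2 ≤ τ p / 2)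
    (hexp : ∀ p ∈ I, B ≤ s p * (τ p / 2)) :
    ∃ H ⊆ W, (∀ p ∈ I, ∑ w ∈ H, ind G p.1 w - ∑ w ∈ H, ind G p.2 w <
      ∑ w ∈ W, z w * ind G p.1 w - ∑ w ∈ W, z w * ind G p.2 w + τ p) ∧
      (H.card : ℝ) < 2 * ∑ w ∈ W, z w + ρ := by
  classical
  set c : Option (V × V) → V → ℝ := fun i w => match i with
    | none => 1
    | some p => s p * (ind G p.1 w - ind G p.2 w) with hc
  set t : Option (V × V) → ℝ := fun i => match i with
    | none => 2 * ∑ w ∈ W, z w + ρ
    | some p => s p * (∑ w ∈ W, z w * ind G p.1 w - ∑ w ∈ W, z w * ind G p.2 w + τ p) with ht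
  have key := chernoff W (insertNone I) z (fun w _ => hz0 w) (fun w _ => hz1 w) c
    (by
      intro i hi w _
      cases i with
      | none => simp [hc]
      | some p =>
        rw [some_mem_insertNone] at hi
        simp only [hc]
        rw [abs_mul, abs_of_nonneg (hs0 p hi)]
        exact mul_le_one₀ (hs1 p hi) (abs_nonneg _) (ind_abs G _ _ _)) t
    (by
      have hbound : ∀ i ∈ insertNone I,
          Real.exp (∑ w ∈ W, z w * (c i w + (c i w) ^ 2) - t i) ≤ Real.exp (-B) := by
        intro i hi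
        rw [Real.exp_le_exp]
        cases i with
        | none =>
          simp only [hc, ht]
          rw [← sum_mul]
          linarith
        | some p =>
          rw [some_mem_insertNone] at hi
          simp only [hc, ht]
          have h1 : ∑ w ∈ W, z w * (s p * (ind G p.1 w - ind G p.2 w) +
              (s p * (ind G p.1 w - ind G p.2 w)) ^ 2) =
              s p * (∑ w ∈ W, z w * ind G p.1 w - ∑ w ∈ W, z w * ind G p.2 w) +
              s p * (s p * ∑ w ∈ W, z w * (ind G p.1 w - ind G p.2 w) ^ 2) := by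
            rw [← sum_sub_distrib, mul_sum, mul_sum, mul_sum, ← sum_add_distrib]
            refine sum_congr rfl fun w _ => ?_
            ring
          rw [h1]
          have h2 := mul_le_mul_of_nonneg_left (hvar p hi) (hs0 p hi)
          have h3 := hexp p hi
          nlinarith
      calc ∑ i ∈ insertNone I, Real.exp (∑ w ∈ W, z w * (c i w + (c i w) ^ 2) - t i)
          ≤ ∑ i ∈ insertNone I, Real.exp (-B) := sum_le_sum hbound
        _ = ((I.card : ℝ) + 1) * Real.exp (-B) := by
            rw [sum_const, card_insertNone, nsmul_eq_mul]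
            push_cast
            ring
        _ < 1 := hB)
  obtain ⟨H, hHW, hH⟩ := key
  refine ⟨H, hHW, ?_, ?_⟩
  · intro p hp
    have h1 := hH (some p) (some_mem_insertNone.2 hp)
    simp only [hc, ht] at h1
    rw [← mul_sum, sum_sub_distrib] at h1
    exact lt_of_mul_lt_mul_left h1 (hs0 p hp)
  · have h1 := hH none (none_mem_insertNone)
    simp only [hc, ht] at h1
    rw [sum_const, nsmul_eq_mul, mul_one] at h1
    exact h1

variable [Fintype V]

/-- squared distance of indicators, i.e. size of the symmetric difference -/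
noncomputable def dd (u v : V) : ℝ := ∑ w, (ind G u w - ind G v w) ^ 2

/-- the weighted level function -/
noncomputable def lev (D0 : ℕ) (κ : ℝ) (z : V → ℝ) (u : V) : ℝ :=
  (1 + κ) * ((D0 : ℝ) - ∑ w, ind G u w) + ∑ w, z w * ind G u w

theorem win (k c1 D0 : ℕ) (hk : 1 ≤ k) (hc1 : 1 ≤ c1) (hdeg : ∀ v, (nb G univ v).card ≤ D0)
    (A D : Finset V) (hAD : Disjoint A D) (hA : A.card = k)
    (htie : ∀ (S : Finset V), A ⊆ S → ∀ s : ℕ,
      (∀ a ∈ A, ∀ b ∈ A, (nb G S a).card ≤ (nb G S b).card + s) →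
      ∃ Y : Finset V, Y ⊆ S \ A ∧ Y.card ≤ c1 * s ∧
        ∀ a ∈ A, ∀ b ∈ A, (nb G (S \ Y) a).card = (nb G (S \ Y) b).card)
    (K η q κ Q ρ : ℝ) (hK : 1 ≤ K) (hη : 0 < η) (hη1 : η ≤ 1) (hq : 0 < q) (hκ : 0 ≤ κ)
    (hκq : κ ≤ q) (hq1 : q ≤ 1 / 2) (z : V → ℝ) (hz0 : ∀ w, 0 ≤ z w) (hz1 : ∀ w, z w ≤ 2 * κ)
    (hρ : 0 < ρ)
    (h1 : ∀ u, u ∉ A → u ∉ D → ∀ a ∈ A, ρ ≤ lev G D0 κ z u - lev G D0 κ z a)
    (h2 : ∀ u, u ∉ A → u ∉ D → ∀ a ∈ A, q * dd G a u ≤
      2 * K * (lev G D0 κ z u - lev G D0 κ z a))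
    (h3 : ∀ a ∈ A, ∀ b ∈ A, lev G D0 κ z a - lev G D0 κ z b ≤ ρ / (64 * c1))
    (h4 : ∀ a ∈ A, ∀ b ∈ A, η * (q * dd G a b) ≤ 2 * K * ρ)
    (h5 : ∀ a ∈ A, (D0 : ℝ) - ∑ w, ind G a w ≤ Q)
    (h5' : ∀ a ∈ A, ∑ w, z w * ind G a w ≤ Q)
    (h6 : q * Q ≤ ρ / (128 * c1))
    (h7 : 2 * (D.card : ℝ) + k ≤ ρ / (256 * c1))
    (h8 : ((k : ℝ) * Fintype.card V + 1) * Real.exp (-(η / (2 ^ 20 * K * c1 ^ 2) * ρ)) < 1) :
    ∃ S : Finset V, ((univ \ S).card : ℝ) ≤
      (k + 1) * (D.card + 2 * k * Q + 2 * ρ) + k * Q ∧ Good G k S := by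
  classical
  have hc1' : (1 : ℝ) ≤ c1 := by exact_mod_cast hc1
  have hc0 : (0 : ℝ) < c1 := by linarith
  have hz1' : ∀ w, z w ≤ 1 := fun w => by have := hz1 w; linarith
  set U := A ∪ A.biUnion (fun a => nb G univ a) with hU
  set W := (U \ A) \ D with hW
  have hNU : ∀ a ∈ A, ∀ w, G.Adj a w → w ∈ U := by
    intro a ha w haw
    rw [hU, mem_union, mem_biUnion]
    exact Or.inr ⟨a, ha, by rw [mem_nb]; exact ⟨mem_univ _, haw⟩⟩
  have hzi0 : ∀ u w, 0 ≤ z w * ind G u w := fun u w => mul_nonneg (hz0 w) (ind_nonneg G u w)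
  have hzi1 : ∀ u w, z w * ind G u w ≤ 1 := fun u w =>
    mul_le_one₀ (hz1' w) (ind_nonneg G u w) (ind_le_one G u w)
  -- comparison of the sums over W, U and everything
  have hWle : ∀ u, ∑ w ∈ W, z w * ind G u w ≤ ∑ w, z w * ind G u w := fun u =>
    sum_le_sum_of_subset_of_nonneg (subset_univ _) (fun w _ _ => hzi0 u w)
  have hWge : ∀ u, ∑ w ∈ U, z w * ind G u w ≤ ∑ w ∈ W, z w * ind G u w + k + D.card := by
    intro u
    have hsub : U ⊆ W ∪ (A ∪ D) := by
      intro w hw
      rw [mem_union, mem_union, hW, mem_sdiff, mem_sdiff]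
      tauto
    calc ∑ w ∈ U, z w * ind G u w ≤ ∑ w ∈ W ∪ (A ∪ D), z w * ind G u w :=
          sum_le_sum_of_subset_of_nonneg hsub (fun w _ _ => hzi0 u w)
      _ ≤ ∑ w ∈ W, z w * ind G u w + ∑ w ∈ A ∪ D, z w * ind G u w := by
          rw [← sum_union_inter]
          have : 0 ≤ ∑ w ∈ W ∩ (A ∪ D), z w * ind G u w := sum_nonneg (fun w _ => hzi0 u w)
          linarith
      _ ≤ ∑ w ∈ W, z w * ind G u w + ∑ w ∈ A ∪ D, (1 : ℝ) := by
          gcongr with w hw
          exact hzi1 u w
      _ ≤ ∑ w ∈ W, z w * ind G u w + k + D.card := by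
          rw [sum_const, nsmul_eq_mul, mul_one]
          have := card_union_le A D
          rw [hA] at this
          have h' : ((A ∪ D).card : ℝ) ≤ (k : ℝ) + D.card := by exact_mod_cast this
          linarith
  have hUeq : ∀ a ∈ A, ∑ w ∈ U, z w * ind G a w = ∑ w, z w * ind G a w := by
    intro a ha
    refine sum_subset (subset_univ _) ?_
    intro w _ hw
    have : ¬ G.Adj a w := fun h => hw (hNU a ha w h)
    simp [ind, this]
  -- the random set
  set B := η / (2 ^ 20 * K * c1 ^ 2) * ρ with hB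
  set s1 := η / (2048 * K * c1) with hs1
  set s2 := 1 / (32 * K) with hs2
  have hK0 : 0 < K := by linarith
  have hs1pos : 0 < s1 := by positivity
  have hs2pos : 0 < s2 := by positivity
  have hs1le : s1 ≤ 1 := by
    rw [hs1, div_le_one (by positivity)]
    nlinarith [mul_le_mul hK hc1' (by norm_num) (by linarith : (0:ℝ) ≤ K)]
  have hs2le : s2 ≤ 1 := by
    rw [hs2, div_le_one (by positivity)]
    linarith
  obtain ⟨H, hHW, hHp, hHc⟩ := randset G W z hz0 hz1' (A ×ˢ (univ \ D))
    (fun p => if p.2 ∈ A then s1 else s2)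
    (fun p => if p.2 ∈ A then ρ / (256 * c1) else (lev G D0 κ z p.2 - lev G D0 κ z p.1) / 4)
    (by intro p _; split_ifs <;> linarith)
    (by intro p _; split_ifs <;> linarith)
    B ρ
    (by
      have : η / (2 ^ 20 * K * c1 ^ 2) ≤ 1 := by
        rw [div_le_one (by positivity)]
        have h9 : (1 : ℝ) ≤ K * c1 ^ 2 := by
          have : (1 : ℝ) ≤ (c1 : ℝ) ^ 2 := one_le_pow₀ hc1'
          nlinarith
        nlinarith
      rw [hB]
      nlinarith)
    (by
      refine lt_of_le_of_lt ?_ h8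
      refine mul_le_mul_of_nonneg_right ?_ (Real.exp_pos _).le
      rw [card_product, hA]
      have : (univ \ D).card ≤ Fintype.card V := card_le_univ _
      have h' : (((univ \ D).card : ℕ) : ℝ) ≤ Fintype.card V := by exact_mod_cast this
      push_cast
      have hk0 : (0 : ℝ) ≤ k := Nat.cast_nonneg k
      nlinarith)
    (by
      intro p hp
      rw [mem_product, mem_sdiff] at hp
      obtain ⟨hpA, _, hpD⟩ := hp
      have hvar : ∑ w ∈ W, z w * (ind G p.1 w - ind G p.2 w) ^ 2 ≤ 2 * q * dd G p.1 p.2 := by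
        unfold dd
        rw [mul_sum]
        calc ∑ w ∈ W, z w * (ind G p.1 w - ind G p.2 w) ^ 2
            ≤ ∑ w, z w * (ind G p.1 w - ind G p.2 w) ^ 2 :=
              sum_le_sum_of_subset_of_nonneg (subset_univ _)
                (fun w _ _ => mul_nonneg (hz0 w) (sq_nonneg _))
          _ ≤ ∑ w, 2 * q * (ind G p.1 w - ind G p.2 w) ^ 2 := by
              gcongr with w _
              have := hz1 w
              linarith
      split_ifs with hpA2
      · have h := h4 p.1 hpA p.2 hpA2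
        calc s1 * ∑ w ∈ W, z w * (ind G p.1 w - ind G p.2 w) ^ 2
            ≤ s1 * (2 * q * dd G p.1 p.2) := mul_le_mul_of_nonneg_left hvar hs1pos.le
          _ = 2 / (2048 * K * c1) * (η * (q * dd G p.1 p.2)) := by rw [hs1]; ring
          _ ≤ 2 / (2048 * K * c1) * (2 * K * ρ) := by gcongr
          _ = ρ / (256 * c1) / 2 := by field_simp; norm_num
      · have h := h2 p.2 hpA2 hpD p.1 hpA
        calc s2 * ∑ w ∈ W, z w * (ind G p.1 w - ind G p.2 w) ^ 2
            ≤ s2 * (2 * q * dd G p.1 p.2) := mul_le_mul_of_nonneg_left hvar hs2pos.le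
          _ = 2 * s2 * (q * dd G p.1 p.2) := by ring
          _ ≤ 2 * s2 * (2 * K * (lev G D0 κ z p.2 - lev G D0 κ z p.1)) := by gcongr
          _ = (lev G D0 κ z p.2 - lev G D0 κ z p.1) / 4 / 2 := by
              rw [hs2]; field_simp; ring)
    (by
      intro p hp
      rw [mem_product, mem_sdiff] at hp
      obtain ⟨hpA, _, hpD⟩ := hp
      split_ifs with hpA2
      · rw [hB, hs1]
        apply le_of_eq
        field_simp
        norm_num
      · have h := h1 p.2 hpA2 hpD p.1 hpA
        calc B = η / (2 ^ 20 * K * c1 ^ 2) * ρ := hB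
          _ ≤ 1 / (256 * K) * ρ := by
              refine mul_le_mul_of_nonneg_right ?_ hρ.le
              rw [div_le_div_iff₀ (by positivity) (by positivity)]
              have : (1 : ℝ) ≤ (c1 : ℝ) ^ 2 := one_le_pow₀ hc1'
              nlinarith [mul_le_mul_of_nonneg_left this hK0.le,
                mul_le_mul_of_nonneg_right hη1 hK0.le]
          _ ≤ 1 / (256 * K) * (lev G D0 κ z p.2 - lev G D0 κ z p.1) := by gcongr
          _ = s2 * ((lev G D0 κ z p.2 - lev G D0 κ z p.1) / 4 / 2) := by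
              rw [hs2]; field_simp; ring)
  have hHU : H ⊆ U := fun w hw => (mem_sdiff.1 (mem_sdiff.1 (hHW hw)).1).1
  have hHA : ∀ w ∈ H, w ∉ A := fun w hw => (mem_sdiff.1 (mem_sdiff.1 (hHW hw)).1).2
  have hHD : ∀ w ∈ H, w ∉ D := fun w hw => (mem_sdiff.1 (hHW hw)).2
  set S1 := univ \ (D ∪ H) with hS1
  have hAS1 : A ⊆ S1 := by
    intro a ha
    rw [hS1, mem_sdiff, mem_union]
    refine ⟨mem_univ _, ?_⟩
    rintro (h | h)
    · exact (disjoint_left.1 hAD ha) h
    · exact hHA a h ha
  have hdisjDH : Disjoint D H := by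
    rw [disjoint_left]
    intro w hw hw'
    exact hHD w hw' hw
  have hsumS1 : ∀ v, ∑ w ∈ S1, ind G v w = ∑ w, ind G v w - ∑ w ∈ D, ind G v w -
      ∑ w ∈ H, ind G v w := by
    intro v
    have := sum_sdiff (f := fun w => ind G v w) (subset_univ (D ∪ H))
    rw [sum_union hdisjDH] at this
    simp only [hS1]
    linarith
  have hindD0 : ∀ v, 0 ≤ ∑ w ∈ D, ind G v w := fun v => sum_nonneg (fun w _ => ind_nonneg G v w)
  have hindD : ∀ v, ∑ w ∈ D, ind G v w ≤ D.card := by
    intro v
    calc ∑ w ∈ D, ind G v w ≤ ∑ w ∈ D, (1 : ℝ) := sum_le_sum fun w _ => ind_le_one G v w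
      _ = D.card := by simp
  have hindH : ∀ v, ∑ w ∈ H, ind G v w ≤ H.card := by
    intro v
    calc ∑ w ∈ H, ind G v w ≤ ∑ w ∈ H, (1 : ℝ) := sum_le_sum fun w _ => ind_le_one G v w
      _ = H.card := by simp
  have he0 : ∀ v, 0 ≤ (D0 : ℝ) - ∑ w, ind G v w := by
    intro v
    rw [← card_nb]
    have := hdeg v
    have : ((nb G univ v).card : ℝ) ≤ D0 := by exact_mod_cast this
    linarith
  set s := ⌊ρ / (32 * c1)⌋₊ with hs
  have hspread : ∀ a ∈ A, ∀ b ∈ A, (nb G S1 a).card ≤ (nb G S1 b).card + s := by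
    intro a ha b hb
    have hr := hHp (b, a) (by
      rw [mem_product, mem_sdiff]
      exact ⟨hb, mem_univ _, disjoint_left.1 hAD ha⟩)
    dsimp only at hr
    rw [if_pos ha] at hr
    have e1 := hWle b
    have e2 := hWge a
    rw [hUeq a ha] at e2
    have e3 := h3 b hb a ha
    have e4 := he0 b
    have e5 := he0 a
    have e6 := h5 a ha
    have e7 := h5' a ha
    have e8 := hindD0 a
    have e9 := hindD b
    have e10 : κ * ((D0 : ℝ) - ∑ w, ind G a w) ≤ ρ / (128 * c1) := by
      calc κ * ((D0 : ℝ) - ∑ w, ind G a w) ≤ q * Q := by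
            apply mul_le_mul hκq e6 e5 hq.le
        _ ≤ _ := h6
    have e11 : 0 ≤ κ * ((D0 : ℝ) - ∑ w, ind G b w) := mul_nonneg hκ e4
    unfold lev at e3
    have hreal : ((nb G S1 a).card : ℝ) - (nb G S1 b).card ≤ ρ / (32 * c1) := by
      rw [card_nb, card_nb, hsumS1, hsumS1]
      have e12 : ρ / (32 * c1) = ρ / (64 * c1) + ρ / (128 * c1) + ρ / (256 * c1) +
        ρ / (256 * c1) := by
        field_simp
        norm_num
      rw [e12]
      linarith
    have hfl : (((nb G S1 a).card : ℤ) - (nb G S1 b).card) ≤ (s : ℤ) := by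
      rw [hs, Int.natCast_floor_eq_floor (by positivity), Int.le_floor]
      push_cast
      exact hreal
    omega
  obtain ⟨Y, hYS, hYc, hYeq⟩ := htie S1 hAS1 s hspread
  have hYc' : (Y.card : ℝ) ≤ ρ / 32 := by
    calc (Y.card : ℝ) ≤ (c1 : ℝ) * s := by exact_mod_cast hYc
      _ ≤ (c1 : ℝ) * (ρ / (32 * c1)) := by
          gcongr
          exact Nat.floor_le (by positivity)
      _ = ρ / 32 := by field_simp
  set S := S1 \ Y with hS
  set P := U ∩ S with hP
  have hYA : ∀ y ∈ Y, y ∉ A := fun y hy => (mem_sdiff.1 (hYS hy)).2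
  have hAS : A ⊆ S := by
    intro a ha
    rw [hS, mem_sdiff]
    exact ⟨hAS1 ha, fun h => hYA a h ha⟩
  have hAP : A ⊆ P := by
    intro a ha
    rw [hP, mem_inter]
    exact ⟨by rw [hU, mem_union]; exact Or.inl ha, hAS ha⟩
  have hPS : P ⊆ S := inter_subset_right
  have hne : A.Nonempty := by
    rw [← card_pos, hA]
    exact hk
  obtain ⟨a0, ha0⟩ := hne
  set d := (nb G S a0).card with hd
  have hAS' : ∀ a ∈ A, nb G S a ⊆ P := by
    intro a ha u hu
    rw [mem_nb] at hu
    rw [hP, mem_inter]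
    exact ⟨hNU a ha u hu.2, hu.1⟩
  have hAPd : ∀ a ∈ A, (nb G P a).card = d := by
    intro a ha
    have h9 : nb G P a = nb G S a := by
      apply Subset.antisymm (nb_mono G hPS a)
      intro u hu
      rw [mem_nb]
      exact ⟨hAS' a ha hu, ((mem_nb G).1 hu).2⟩
    rw [h9, hd]
    exact hYeq a ha a0 ha0
  have hdge : ((D0 : ℝ) - ((D0 : ℝ) - ∑ w, ind G a0 w)) - D.card - Y.card -
      ∑ w ∈ H, ind G a0 w ≤ d := by
    have h9 : (nb G S1 a0).card ≤ d + Y.card := by
      have h10 : nb G S1 a0 ⊆ nb G S a0 ∪ Y := by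
        intro u hu
        rw [mem_nb] at hu
        rw [mem_union, mem_nb, hS, mem_sdiff]
        by_cases huY : u ∈ Y
        · exact Or.inr huY
        · exact Or.inl ⟨⟨hu.1, huY⟩, hu.2⟩
      exact (card_le_card h10).trans (card_union_le _ _)
    have h11 : ((nb G S1 a0).card : ℝ) ≤ d + Y.card := by exact_mod_cast h9
    rw [card_nb, hsumS1] at h11
    have := hindD a0
    linarith
  have hPd : ∀ v ∈ S, (nb G P v).card ≤ d := by
    intro v hv
    by_cases hvA : v ∈ A
    · exact (hAPd v hvA).le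
    have hvD : v ∉ D := by
      intro h
      rw [hS, mem_sdiff, hS1, mem_sdiff, mem_union] at hv
      exact hv.1.2 (Or.inl h)
    have hr := hHp (a0, v) (by
      rw [mem_product, mem_sdiff]
      exact ⟨ha0, mem_univ _, hvD⟩)
    dsimp only at hr
    rw [if_neg hvA] at hr
    have hm := h1 v hvA hvD a0 ha0
    set m := lev G D0 κ z v - lev G D0 κ z a0 with hmdef
    have e1 := hWle a0
    have e2 := hWge v
    -- count inside P
    have e3 : ((nb G P v).card : ℝ) ≤ ∑ w ∈ U, ind G v w - ∑ w ∈ H, ind G v w := by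
      rw [card_nb]
      have h9 : P ⊆ U \ H := by
        intro w hw
        have hwU : w ∈ U := (mem_inter.1 hw).1
        have hwS : w ∈ S := (mem_inter.1 hw).2
        rw [hS, mem_sdiff, hS1, mem_sdiff, mem_union] at hwS
        rw [mem_sdiff]
        exact ⟨hwU, fun h => hwS.1.2 (Or.inr h)⟩
      have h10 := sum_sdiff (f := fun w => ind G v w) hHU
      have h11 : ∑ w ∈ P, ind G v w ≤ ∑ w ∈ U \ H, ind G v w :=
        sum_le_sum_of_subset_of_nonneg h9 (fun w _ _ => ind_nonneg G v w)
      linarith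
    -- x and y
    set x := (∑ w, ind G a0 w) - ∑ w ∈ U, ind G v w with hx
    set y := (∑ w ∈ U, z w * ind G v w) - ∑ w, z w * ind G a0 w with hy
    have e4 : m ≤ (1 + κ) * x + y := by
      have h9 : ∑ w ∈ univ \ U, z w * ind G v w ≤ ∑ w ∈ univ \ U, ind G v w := by
        refine sum_le_sum fun w _ => ?_
        have := mul_le_mul_of_nonneg_right (hz1' w) (ind_nonneg G v w)
        linarith
      have h10 := sum_sdiff (f := fun w => ind G v w) (subset_univ U)
      have h11 := sum_sdiff (f := fun w => z w * ind G v w) (subset_univ U)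
      have h12 : 0 ≤ ∑ w ∈ univ \ U, ind G v w := sum_nonneg (fun w _ => ind_nonneg G v w)
      have h13 : 0 ≤ κ * ∑ w ∈ univ \ U, ind G v w := mul_nonneg hκ h12
      rw [hmdef, hx, hy]
      unfold lev
      nlinarith
    have e5 : -Q ≤ y := by
      have h9 := h5' a0 ha0
      have h10 : 0 ≤ ∑ w ∈ U, z w * ind G v w := sum_nonneg (fun w _ => hzi0 v w)
      rw [hy]
      linarith
    have hm0 : 0 < m := lt_of_lt_of_le hρ hm
    have hQ0 : 0 ≤ Q := (he0 a0).trans (h5 a0 ha0)
    have e6 : m / 2 ≤ x + y := by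
      by_cases hcase : κ * x ≤ m / 2
      · linarith
      · push Not at hcase
        have hκpos : 0 < κ := by
          rcases hκ.lt_or_eq with h | h
          · exact h
          · exfalso
            rw [← h] at hcase
            linarith
        have hx0 : 0 < x := by
          by_contra hcon
          push Not at hcon
          have := mul_nonpos_of_nonneg_of_nonpos hκ hcon
          linarith
        have hκ2 : κ ≤ 1 / 2 := by linarith
        have h9 : κ * x ≤ 1 / 2 * x := mul_le_mul_of_nonneg_right hκ2 hx0.le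
        have h10 : κ * Q ≤ m / 4 := by
          have h11 : κ * Q ≤ q * Q := mul_le_mul_of_nonneg_right hκq hQ0
          have h12 : ρ / (128 * c1) ≤ ρ / 4 := by
            apply div_le_div_of_nonneg_left hρ.le (by norm_num)
            linarith
          linarith
        have h13 : 2 * Q ≤ x := by
          by_contra hcon
          push Not at hcon
          have : κ * x < κ * (2 * Q) := mul_lt_mul_of_pos_left hcon hκpos
          linarith
        linarith
    have e7 : (k : ℝ) + 2 * D.card + Y.card ≤ m / 4 := by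
      have h12 : ρ / (256 * c1) ≤ ρ / 256 := by
        apply div_le_div_of_nonneg_left hρ.le (by norm_num)
        linarith
      linarith
    have e8 : ((nb G P v).card : ℝ) ≤ d := by
      linarith
    exact_mod_cast e8
  have hdD0 : d ≤ D0 := (card_le_card (nb_mono G (subset_univ _) a0)).trans (hdeg a0)
  obtain ⟨S', hS'1, hS'2, hS'3⟩ := raise G k d P A hAP hA.ge hAPd (D0 - d) S hPS hAS' hPd
    (by
      intro v hv
      have h9 := card_le_card (nb_mono G (subset_univ S) v)
      have h10 := hdeg v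
      omega)
  refine ⟨S', ?_, hS'3⟩
  have hsumz : ∑ w ∈ W, z w ≤ k * Q := by
    have h9 : W ⊆ A.biUnion (fun a => nb G univ a) := by
      intro w hw
      rw [hW, mem_sdiff, mem_sdiff, hU, mem_union] at hw
      rcases hw.1.1 with h | h
      · exact absurd h hw.1.2
      · exact h
    calc ∑ w ∈ W, z w ≤ ∑ w ∈ W, ∑ a ∈ A, z w * ind G a w := by
          refine sum_le_sum fun w hw => ?_
          obtain ⟨a, ha, haw⟩ := mem_biUnion.1 (h9 hw)
          have h10 : z w * ind G a w ≤ ∑ a ∈ A, z w * ind G a w :=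
            single_le_sum (f := fun a => z w * ind G a w) (fun a _ => hzi0 a w) ha
          have h11 : ind G a w = 1 := by
            unfold ind
            rw [if_pos ((mem_nb G).1 haw).2]
          rw [h11, mul_one] at h10
          exact h10
      _ ≤ ∑ w, ∑ a ∈ A, z w * ind G a w :=
          sum_le_sum_of_subset_of_nonneg (subset_univ _)
            (fun w _ _ => sum_nonneg (fun a _ => hzi0 a w))
      _ = ∑ a ∈ A, ∑ w, z w * ind G a w := sum_comm
      _ ≤ ∑ a ∈ A, Q := sum_le_sum fun a ha => h5' a ha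
      _ = k * Q := by rw [sum_const, hA, nsmul_eq_mul]
  have hHc' : (H.card : ℝ) ≤ 2 * k * Q + ρ := by linarith
  have hL : ((D0 - d : ℕ) : ℝ) ≤ Q + D.card + Y.card + H.card := by
    rw [Nat.cast_sub hdD0]
    have h9 := h5 a0 ha0
    have h10 := hindH a0
    linarith
  have hcost : (univ \ S').card ≤ (D.card + H.card + Y.card) + k * (D0 - d) := by
    have h9 := sdiff_card_aux univ (D ∪ H ∪ Y) S'
    have h10 : univ \ (D ∪ H ∪ Y) = S := by
      rw [hS, hS1]
      ext w
      simp only [mem_sdiff, mem_union, mem_univ, true_and]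
      tauto
    rw [h10] at h9
    have h11 := card_union_le (D ∪ H) Y
    have h12 := card_union_le D H
    omega
  have hcost' : ((univ \ S').card : ℝ) ≤ (D.card + H.card + Y.card) + k * ((D0 - d : ℕ) : ℝ) := by
    exact_mod_cast hcost
  have hk0 : (0 : ℝ) ≤ k := Nat.cast_nonneg k
  have h9 : (k : ℝ) * ((D0 - d : ℕ) : ℝ) ≤ k * (Q + D.card + Y.card + H.card) :=
    mul_le_mul_of_nonneg_left hL hk0
  have h10 : (D.card : ℝ) + H.card + Y.card ≤ D.card + 2 * k * Q + 2 * ρ := by linarith
  have h11 : (k : ℝ) * (D.card + H.card + Y.card) ≤ k * (D.card + 2 * k * Q + 2 * ρ) :=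
    mul_le_mul_of_nonneg_left h10 hk0
  linarith

end Pool.Agent.MaxDeg
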